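import Pool.Agent.K6.H59.EB.Dens

set_option autoImplicit false

/-! # Bases of finitely generated groups of polynomials -/

namespace Pool.Agent.K6.H59.EB

open Polynomial Finset

/-- A finitely generated subgroup of a group without torsion modulo `R` has a basis modulo `R`. -/
theorem exists_basis {V : Type} [AddCommGroup V] (R : AddSubgroup V)
    (hR : ∀ (n : ℤ) (v : V), n ≠ 0 → n • v ∈ R → v ∈ R) {ι : Type} [Fintype ι] (f : ι → V) :
    ∃ (s : ℕ) (q : Fin s → V), (∀ h : Fin s → ℤ, ∑ j, h j • q j ∈ R → h = 0) ∧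
      ∀ i, ∃ c : Fin s → ℤ, f i - ∑ j, c j • q j ∈ R := by
  classical
  have hmk : ∀ v : V, (QuotientAddGroup.mk v : V ⧸ R) = 0 ↔ v ∈ R := fun v =>
    QuotientAddGroup.eq_zero_iff v
  set Λ : Submodule ℤ (V ⧸ R) := Submodule.span ℤ (Set.range fun i => (QuotientAddGroup.mk (f i) : V ⧸ R))
    with hΛ
  have : Module.Finite ℤ Λ := by
    rw [hΛ]
    exact Module.Finite.span_of_finite ℤ (Set.finite_range _)
  have htor : ∀ (n : ℤ) (x : V ⧸ R), n ≠ 0 → n • x = 0 → x = 0 := by
    intro n x hn hx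
    obtain ⟨v, rfl⟩ := QuotientAddGroup.mk_surjective x
    rw [hmk]
    apply hR n v hn
    rw [← hmk]
    exact hx
  have : Module.IsTorsionFree ℤ Λ := by
    constructor
    intro n hn x y hxy
    have hn0 : n ≠ 0 := hn.ne_zero
    have h1 : n • (x - y) = 0 := by
      rw [smul_sub]; exact sub_eq_zero.2 hxy
    have h2 : n • ((x : V ⧸ R) - (y : V ⧸ R)) = 0 := by
      have := congrArg Subtype.val h1
      simpa using this
    have h3 := htor n _ hn0 h2
    exact Subtype.ext (sub_eq_zero.1 h3)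
  have : Module.Free ℤ Λ := inferInstance
  set s := Module.finrank ℤ Λ with hs
  let b : Module.Basis (Fin s) ℤ Λ := Module.finBasis ℤ Λ
  choose q hq using fun j : Fin s => QuotientAddGroup.mk_surjective ((b j : Λ) : V ⧸ R)
  have hsum : ∀ h : Fin s → ℤ, (QuotientAddGroup.mk (∑ j, h j • q j) : V ⧸ R) =
      ((∑ j, h j • b j : Λ) : V ⧸ R) := by
    intro h
    have e1 : (QuotientAddGroup.mk (∑ j, h j • q j) : V ⧸ R) =
        ∑ j, h j • (QuotientAddGroup.mk (q j) : V ⧸ R) := by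
      have := map_sum (QuotientAddGroup.mk' R) (fun j => h j • q j) univ
      simp only [map_zsmul] at this
      exact this
    rw [e1, Submodule.coe_sum]
    refine Finset.sum_congr rfl fun j _ => ?_
    rw [hq, Submodule.coe_smul]
  refine ⟨s, q, ?_, ?_⟩
  · intro h hh
    rw [← hmk, hsum] at hh
    have h1 : (∑ j, h j • b j : Λ) = 0 := Subtype.ext hh
    have h2 := b.linearIndependent
    rw [Fintype.linearIndependent_iff] at h2
    funext j
    exact h2 h h1 j
  · intro i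
    have hmem : (QuotientAddGroup.mk (f i) : V ⧸ R) ∈ Λ := Submodule.subset_span ⟨i, rfl⟩
    refine ⟨fun j => b.repr ⟨_, hmem⟩ j, ?_⟩
    rw [← hmk]
    have h1 := b.sum_repr ⟨_, hmem⟩
    have h2 := hsum (fun j => b.repr ⟨_, hmem⟩ j)
    rw [h1] at h2
    have h3 : (QuotientAddGroup.mk (f i - ∑ j, (b.repr ⟨_, hmem⟩ j) • q j) : V ⧸ R) =
        QuotientAddGroup.mk (f i) - QuotientAddGroup.mk (∑ j, (b.repr ⟨_, hmem⟩ j) • q j) := rfl
    rw [h3, h2, sub_self]

/-- the subgroup of the polynomials with rational nonconstant coefficients -/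
def ratSub : AddSubgroup ℝ[X] where
  carrier := {f | RatP f}
  zero_mem' := fun i _ => ⟨0, by simp⟩
  add_mem' := by
    intro f g hf hg i hi
    obtain ⟨a, ha⟩ := hf i hi
    obtain ⟨b, hb⟩ := hg i hi
    exact ⟨a + b, by rw [coeff_add, ha, hb]; push_cast; ring⟩
  neg_mem' := by
    intro f hf i hi
    obtain ⟨a, ha⟩ := hf i hi
    exact ⟨-a, by rw [coeff_neg, ha]; push_cast; ring⟩

theorem exists_basis_poly {ι : Type} [Fintype ι] (f : ι → ℝ[X]) :
    ∃ (s : ℕ) (q : Fin s → ℝ[X]), Indep q ∧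
      ∀ i, ∃ c : Fin s → ℤ, RatP (f i - ∑ j, C (c j : ℝ) * q j) := by
  obtain ⟨s, q, h1, h2⟩ := exists_basis ratSub (by
    intro n v hn hv i hi
    obtain ⟨a, ha⟩ := hv i hi
    refine ⟨a / n, ?_⟩
    have h3 : (n • v).coeff i = (n : ℝ) * v.coeff i := by
      rw [coeff_smul, zsmul_eq_mul]
    rw [h3] at ha
    have hn' : (n : ℝ) ≠ 0 := by exact_mod_cast hn
    push_cast
    rw [← ha]
    field_simp) f
  have e : ∀ (c : Fin s → ℤ), ∑ j, c j • q j = ∑ j, C (c j : ℝ) * q j := by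
    intro c
    refine Finset.sum_congr rfl fun j _ => ?_
    rw [zsmul_eq_mul]
    simp
  refine ⟨s, q, fun h hh => h1 h ?_, fun i => ?_⟩
  · rw [e]; exact hh
  · obtain ⟨c, hc⟩ := h2 i
    rw [e] at hc
    exact ⟨c, hc⟩

/-- common denominators -/
theorem exists_denom {ι : Type} [Fintype ι] (f : ι → ℝ[X]) (hf : ∀ i, RatP (f i)) :
    ∃ D : ℕ, 0 < D ∧ ∀ i, ∀ n m : ℤ, (D : ℤ) ∣ n - m →
      ∃ z : ℤ, (f i).eval (n : ℝ) - (f i).eval (m : ℝ) = z := by
  classical
  have h1 : ∀ i, ∃ D : ℕ, 0 < D ∧ ∀ n m : ℤ, (D : ℤ) ∣ n - m →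
      ∃ z : ℤ, (f i).eval (n : ℝ) - (f i).eval (m : ℝ) = z := by
    intro i
    obtain ⟨c, g, hg⟩ := (ratP_iff _).1 (hf i)
    refine ⟨∏ k ∈ Finset.range (g.natDegree + 1), (g.coeff k).den,
      Finset.prod_pos fun k _ => (g.coeff k).den_pos, fun n m hnm => ?_⟩
    set D := ∏ k ∈ Finset.range (g.natDegree + 1), (g.coeff k).den with hD
    have h2 : ∀ x : ℝ, (f i).eval x = c + ∑ k ∈ Finset.range (g.natDegree + 1),
        (g.coeff k : ℝ) * x ^ k := by
      intro x
      rw [hg, eval_add, eval_C, eval_map, eval₂_eq_sum_range]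
      rfl
    rw [h2, h2, add_sub_add_left_eq_sub, ← Finset.sum_sub_distrib]
    have h3 : ∀ k ∈ Finset.range (g.natDegree + 1), ∃ z : ℤ,
        (g.coeff k : ℝ) * (n : ℝ) ^ k - (g.coeff k : ℝ) * (m : ℝ) ^ k = z := by
      intro k hk
      obtain ⟨a, ha⟩ : (g.coeff k).den ∣ D := Finset.dvd_prod_of_mem _ hk
      obtain ⟨b, hb⟩ : (D : ℤ) ∣ n ^ k - m ^ k := hnm.trans (sub_dvd_pow_sub_pow n m k)
      refine ⟨(g.coeff k).num * a * b, ?_⟩
      rw [← mul_sub]
      have h4 : ((n : ℝ) ^ k - (m : ℝ) ^ k) = (D : ℝ) * b := by exact_mod_cast hb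
      have h5 : (g.coeff k : ℝ) = (g.coeff k).num / (g.coeff k).den := by
        exact_mod_cast (Rat.num_div_den (g.coeff k)).symm
      have h6 : ((g.coeff k).den : ℝ) ≠ 0 := by exact_mod_cast (g.coeff k).den_ne_zero
      rw [h4, h5, ha]
      push_cast
      field_simp
    choose! z hz using h3
    exact ⟨∑ k ∈ Finset.range (g.natDegree + 1), z k, by
      push_cast
      exact Finset.sum_congr rfl hz⟩
  choose D hD0 hD using h1
  refine ⟨∏ i, D i, Finset.prod_pos fun i _ => hD0 i, fun i n m hnm => hD i n m ?_⟩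
  refine dvd_trans ?_ hnm
  exact_mod_cast Finset.dvd_prod_of_mem D (Finset.mem_univ i)

/-- a polynomial with an irrational nonconstant coefficient has few integral values at integers -/
theorem finite_int (f : ℝ[X]) (hf : ¬ RatP f) :
    {n : ℕ | ∃ z : ℤ, f.eval (n : ℝ) = z}.Finite := by
  classical
  by_contra hinf
  apply hf
  obtain ⟨s, hs, hcard⟩ := Set.Infinite.exists_subset_card_eq hinf (f.natDegree + 1)
  have hval : ∀ n ∈ s, ∃ z : ℤ, f.eval (n : ℝ) = z := fun n hn => hs hn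
  choose! z hz using hval
  set P : ℚ[X] := Lagrange.interpolate s (fun i : ℕ => (i : ℚ)) (fun i => (z i : ℚ)) with hP
  have hinj : Set.InjOn (fun i : ℕ => (i : ℚ)) (s : Set ℕ) := fun a _ b _ hab => by simpa using hab
  have heq : f = P.map (algebraMap ℚ ℝ) := by
    have h1 : (P.map (algebraMap ℚ ℝ)).degree < s.card := by
      refine lt_of_le_of_lt (degree_map_le) ?_
      exact Lagrange.degree_interpolate_lt _ hinj
    have h2 : f.degree < s.card := by
      rw [hcard]
      exact lt_of_le_of_lt degree_le_natDegree (by exact_mod_cast Nat.lt_succ_self _)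
    have hinjR : Set.InjOn (fun i : ℕ => (i : ℝ)) (s : Set ℕ) := fun a _ b _ hab => by
      simpa using hab
    refine Polynomial.eq_of_degrees_lt_of_eval_index_eq s hinjR h2 h1 ?_
    intro i hi
    have h3 : P.eval (i : ℚ) = z i :=
      Lagrange.eval_interpolate_at_node (v := fun i : ℕ => (i : ℚ)) _ hinj hi
    rw [hz i hi, eval_map, eval₂_at_natCast, h3]
    simp
  rw [heq]
  intro i _
  exact ⟨P.coeff i, by rw [coeff_map]; rfl⟩

end Pool.Agent.K6.H59.EB
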