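import Pool.Agent.K6.H59.EB.StepB
import Pool.Agent.TH409.SH.Fin2

set_option autoImplicit false

/-! # Polynomial curves through the values of exponential polynomials -/

namespace Pool.Agent.K6.H59.EB

open Polynomial Finset Filter Topology

variable {b r t : ℕ}

/-- clearing denominators -/
theorem clear (Zc : Fin r → ℂ[X]) (κ : Fin t × Fin r → ℂ) (c : Fin t × Fin r → Fin b → ℤ)
    (Ph : MvPolynomial (Fin r ⊕ (Fin t × Fin r)) ℂ) :
    ∃ (K : ℕ) (Q : MvPolynomial (Option (Fin b)) ℂ), ∀ x : Option (Fin b) → ℂ,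
      (∀ a, x (some a) ≠ 0) → MvPolynomial.eval x Q = (∏ a, x (some a)) ^ K *
        MvPolynomial.eval (Sum.elim (fun i => (Zc i).eval (x none))
          (fun li => κ li * ∏ a, x (some a) ^ (c li a))) Ph := by
  classical
  induction Ph using MvPolynomial.induction_on with
  | C a => exact ⟨0, MvPolynomial.C a, fun x _ => by simp⟩
  | add p q hp hq =>
    obtain ⟨K1, Q1, h1⟩ := hp
    obtain ⟨K2, Q2, h2⟩ := hq
    refine ⟨K1 + K2, (∏ a, MvPolynomial.X (some a)) ^ K2 * Q1 +
      (∏ a, MvPolynomial.X (some a)) ^ K1 * Q2, fun x hx => ?_⟩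
    have e : MvPolynomial.eval x (∏ a : Fin b, MvPolynomial.X (some a)) = ∏ a, x (some a) := by
      rw [map_prod]
      simp
    rw [map_add, map_add, map_mul, map_mul, map_pow, map_pow, e, h1 x hx, h2 x hx]
    ring
  | mul_X p v hp =>
    obtain ⟨K1, Q1, h1⟩ := hp
    rcases v with i | li
    · refine ⟨K1, Q1 * Polynomial.aeval (MvPolynomial.X none) (Zc i), fun x hx => ?_⟩
      have e : MvPolynomial.eval x (Polynomial.aeval (MvPolynomial.X none :
          MvPolynomial (Option (Fin b)) ℂ) (Zc i)) = (Zc i).eval (x none) := by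
        have := Polynomial.hom_eval₂ (Zc i) (algebraMap ℂ (MvPolynomial (Option (Fin b)) ℂ))
          (MvPolynomial.eval x) (MvPolynomial.X none)
        rw [Polynomial.aeval_def, this, MvPolynomial.eval_X]
        have e2 : (MvPolynomial.eval x).comp (algebraMap ℂ (MvPolynomial (Option (Fin b)) ℂ)) =
            RingHom.id ℂ := by
          ext z
          simp
        rw [e2, Polynomial.eval₂_id]
      rw [map_mul, map_mul, h1 x hx, e, MvPolynomial.eval_X]
      simp only [Sum.elim_inl]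
      ring
    · set m : ℕ := ∑ a, (c li a).natAbs with hm
      have hnn : ∀ a, 0 ≤ c li a + m := by
        intro a
        have h2 : (c li a).natAbs ≤ m := Finset.single_le_sum (f := fun a => (c li a).natAbs)
          (fun _ _ => Nat.zero_le _) (Finset.mem_univ a)
        omega
      refine ⟨K1 + m, Q1 * (MvPolynomial.C (κ li) * ∏ a, MvPolynomial.X (some a) ^ (c li a + m).toNat),
        fun x hx => ?_⟩
      rw [map_mul, map_mul, map_mul, h1 x hx, MvPolynomial.eval_C, map_prod, MvPolynomial.eval_X]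
      simp only [map_pow, MvPolynomial.eval_X, Sum.elim_inr]
      have e : ∏ a, x (some a) ^ (c li a + m).toNat =
          (∏ a, x (some a)) ^ m * ∏ a, x (some a) ^ (c li a) := by
        rw [← Finset.prod_pow, ← Finset.prod_mul_distrib]
        refine Finset.prod_congr rfl fun a _ => ?_
        rw [← zpow_natCast (x (some a)) ((c li a + m).toNat), Int.toNat_of_nonneg (hnn a),
          zpow_add₀ (hx a), zpow_natCast]
        ring
      rw [e, pow_add]
      ring

/-- the value of the family -/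
noncomputable def xh {N : ℕ} (Z : Fin r → ℚ[X]) (G : Fin t → ℂ)
    (Ph : Fin (N + 1) → MvPolynomial (Fin r ⊕ (Fin t × Fin r)) ℂ) (n : ℕ) (k : Fin (N + 1)) : ℂ :=
  MvPolynomial.eval (Sum.elim (fun i => (((Z i).eval (n : ℚ) : ℚ) : ℂ))
    (fun li => Complex.exp (G li.1 * (((Z li.2).eval (n : ℚ) : ℚ) : ℂ)))) (Ph k)

/-- A family of points given by an exponential polynomial (with rational polynomials as exponents)
on a projective variety lies on polynomial curves. -/
theorem curve {N : ℕ} (V : Submodule ℚ ℂ)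
    (hV : ∀ v ∈ V, ∀ x : ℚ, v = 2 * Real.pi * Complex.I * x → v = 0)
    (G : Fin t → ℂ) (hG : ∀ l, G l ∈ V) (Z : Fin r → ℚ[X])
    (FF : Set (MvPolynomial (Fin (N + 1)) ℂ)) (hom : ∀ F ∈ FF, ∃ m, F.IsHomogeneous m)
    (Ph : Fin (N + 1) → MvPolynomial (Fin r ⊕ (Fin t × Fin r)) ℂ)
    (h : ∀ n : ℕ, ∀ F ∈ FF, MvPolynomial.eval (xh Z G Ph n) F = 0) :
    ∃ q : Fin (N + 1) → ℂ[X], (∀ F ∈ FF, MvPolynomial.aeval q F = 0) ∧
      (∀ k, (q k).eval 0 = xh Z G Ph 0 k) ∧
      ∃ c : ℂ, c ≠ 0 ∧ ∀ k, (q k).eval 1 = c * xh Z G Ph 1 k := by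
  classical
  set Zc : Fin r → ℂ[X] := fun i => (Z i).map (algebraMap ℚ ℂ) with hZc
  have hZe : ∀ i (n : ℕ), (Zc i).eval (n : ℂ) = (((Z i).eval (n : ℚ) : ℚ) : ℂ) := by
    intro i n
    rw [hZc, eval_map, eval₂_at_natCast]
    rfl
  -- the group of polynomials with coefficients in `V`
  let 𝒦 : AddSubgroup ℂ[X] :=
    { carrier := {c | ∀ k, c.coeff k ∈ V}
      zero_mem' := fun k => by rw [coeff_zero]; exact V.zero_mem
      add_mem' := fun hf hg k => by rw [coeff_add]; exact V.add_mem (hf k) (hg k)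
      neg_mem' := fun hf k => by rw [coeff_neg]; exact V.neg_mem (hf k) }
  have hW : ∀ li : Fin t × Fin r, C (G li.1) * divX (Zc li.2) ∈ 𝒦 := by
    intro li k
    rw [coeff_C_mul, coeff_divX, hZc]
    simp only [coeff_map]
    have e : G li.1 * (algebraMap ℚ ℂ) ((Z li.2).coeff (k + 1)) =
        ((Z li.2).coeff (k + 1)) • G li.1 := by
      rw [Algebra.smul_def, mul_comm]
    rw [e]
    exact V.smul_mem _ (hG _)
  obtain ⟨b, e, he1, he2⟩ := exists_basis (V := 𝒦) ⊥ (by
    intro n v hn hv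
    rw [AddSubgroup.mem_bot] at hv ⊢
    apply Subtype.ext
    have h1 : n • (v : ℂ[X]) = 0 := by
      have := congrArg Subtype.val hv
      simpa using this
    rcases smul_eq_zero.1 h1 with h2 | h2
    · exact absurd h2 hn
    · exact h2) (fun li : Fin t × Fin r => (⟨C (G li.1) * divX (Zc li.2), hW li⟩ : 𝒦))
  choose c hc using he2
  have hWe : ∀ li : Fin t × Fin r, C (G li.1) * divX (Zc li.2) =
      ∑ a, c li a • (e a : ℂ[X]) := by
    intro li
    have h1 := hc li
    rw [AddSubgroup.mem_bot, sub_eq_zero] at h1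
    have h2 := congrArg Subtype.val h1
    simp only [AddSubgroup.coe_zsmul, AddSubgroup.val_finsetSum] at h2
    exact h2
  have hind : ∀ h : Fin b → ℤ, ∑ a, h a • (e a : ℂ[X]) = 0 → h = 0 := by
    intro h hh
    apply he1
    rw [AddSubgroup.mem_bot]
    apply Subtype.ext
    simp only [AddSubgroup.coe_zsmul, AddSubgroup.val_finsetSum, AddSubgroup.coe_zero]
    exact hh
  set κ : Fin t × Fin r → ℂ := fun li => Complex.exp (G li.1 * ((Zc li.2).coeff 0)) with hκ
  have hexp : ∀ (li : Fin t × Fin r) (n : ℕ),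
      Complex.exp (G li.1 * (((Z li.2).eval (n : ℚ) : ℚ) : ℂ)) =
        κ li * ∏ a, pt (fun a => (e a : ℂ[X])) (n : ℂ) (some a) ^ (c li a) := by
    intro li n
    rw [← hZe]
    have h1 : (Zc li.2).eval (n : ℂ) = n * (divX (Zc li.2)).eval (n : ℂ) + (Zc li.2).coeff 0 := by
      conv_lhs => rw [← divX_mul_X_add (Zc li.2)]
      rw [eval_add, eval_mul, eval_X, eval_C]
      ring
    have h2 : G li.1 * (divX (Zc li.2)).eval (n : ℂ) = ∑ a, (c li a : ℂ) * (e a : ℂ[X]).eval (n : ℂ) := by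
      have := congrArg (fun f => Polynomial.eval (n : ℂ) f) (hWe li)
      simp only [eval_mul, eval_C, eval_finsetSum] at this
      rw [this]
      refine Finset.sum_congr rfl fun a _ => ?_
      rw [zsmul_eq_mul, eval_mul]
      simp
    have h3 : G li.1 * (Zc li.2).eval (n : ℂ) = G li.1 * (Zc li.2).coeff 0 +
        ∑ a, (c li a : ℂ) * ((n : ℂ) * (e a : ℂ[X]).eval (n : ℂ)) := by
      rw [h1, mul_add, mul_left_comm, h2, Finset.mul_sum, add_comm]
      congr 1
      refine Finset.sum_congr rfl fun a _ => ?_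
      ring
    rw [h3, Complex.exp_add, Complex.exp_sum]
    congr 1
    refine Finset.prod_congr rfl fun a _ => ?_
    rw [Complex.exp_int_mul]
    rfl
  choose K Q hQ using fun k => clear (b := b) Zc κ c (Ph k)
  set W : MvPolynomial (Option (Fin b)) ℂ := ∏ a, MvPolynomial.X (some a) with hWdef
  set KK : ℕ := ∑ k, K k with hKK
  have hKle : ∀ k, K k ≤ KK := fun k =>
    Finset.single_le_sum (f := K) (fun _ _ => Nat.zero_le _) (Finset.mem_univ k)
  set Q' : Fin (N + 1) → MvPolynomial (Option (Fin b)) ℂ := fun k => W ^ (KK - K k) * Q k with hQ'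
  have hev : ∀ (n : ℕ) k, MvPolynomial.eval (pt (fun a => (e a : ℂ[X])) (n : ℂ)) (Q' k) =
      (∏ a, pt (fun a => (e a : ℂ[X])) (n : ℂ) (some a)) ^ KK * xh Z G Ph n k := by
    intro n k
    have hne : ∀ a, pt (fun a => (e a : ℂ[X])) (n : ℂ) (some a) ≠ 0 := fun a => Complex.exp_ne_zero _
    have h1 := hQ k (pt (fun a => (e a : ℂ[X])) (n : ℂ)) hne
    have h2 : (∏ a, pt (fun a => (e a : ℂ[X])) (n : ℂ) (some a)) ^ KK =
        (∏ a, pt (fun a => (e a : ℂ[X])) (n : ℂ) (some a)) ^ (KK - K k) *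
          (∏ a, pt (fun a => (e a : ℂ[X])) (n : ℂ) (some a)) ^ (K k) := by
      rw [← pow_add, Nat.sub_add_cancel (hKle k)]
    rw [hQ']
    simp only
    rw [map_mul, map_pow, hWdef, map_prod, h1, h2]
    simp only [MvPolynomial.eval_X]
    rw [mul_assoc]
    congr 2
    rw [xh]
    have h3 : (Sum.elim (fun i => (Zc i).eval (pt (fun a => (e a : ℂ[X])) (n : ℂ) none))
        (fun li => κ li * ∏ a, pt (fun a => (e a : ℂ[X])) (n : ℂ) (some a) ^ (c li a)) :
          Fin r ⊕ (Fin t × Fin r) → ℂ) =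
        Sum.elim (fun i => (((Z i).eval (n : ℚ) : ℚ) : ℂ))
          (fun li => Complex.exp (G li.1 * (((Z li.2).eval (n : ℚ) : ℚ) : ℂ))) := by
      funext x
      rcases x with i | li
      · simp only [Sum.elim_inl]
        rw [← hZe]
        rfl
      · simp only [Sum.elim_inr]
        rw [hexp]
    rw [h3]
  -- the forms vanish identically
  have hΞ : ∀ F ∈ FF, MvPolynomial.aeval Q' F = 0 := by
    intro F hF
    obtain ⟨m, hm⟩ := hom F hF
    apply stepB V hV (fun a => (e a : ℂ[X])) (fun a k => (e a).2 k) hind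
    intro n
    have h1 : MvPolynomial.eval (pt (fun a => (e a : ℂ[X])) (n : ℂ)) (MvPolynomial.aeval Q' F) =
        MvPolynomial.eval (fun k => MvPolynomial.eval (pt (fun a => (e a : ℂ[X])) (n : ℂ)) (Q' k)) F := by
      rw [MvPolynomial.aeval_def, MvPolynomial.hom_eval₂, MvPolynomial.eval, MvPolynomial.coe_eval₂Hom]
      congr 1
      ext z
      simp
    rw [h1]
    simp_rw [hev]
    have h2 := Pool.Agent.H458.Sp.aeval_smul_homog (R := ℂ) (S := ℂ) F hm
      ((∏ a, pt (fun a => (e a : ℂ[X])) (n : ℂ) (some a)) ^ KK) (xh Z G Ph n)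
    have h3 : ∀ x : Fin (N + 1) → ℂ, MvPolynomial.aeval x F = MvPolynomial.eval x F := fun x => by
      rw [MvPolynomial.aeval_eq_eval]
    rw [h3, h3, h n F hF, mul_zero] at h2
    exact h2
  -- the line
  set γ : Option (Fin b) → ℂ[X] := fun o =>
    C (pt (fun a => (e a : ℂ[X])) (0 : ℂ) o) +
      C (pt (fun a => (e a : ℂ[X])) (1 : ℂ) o - pt (fun a => (e a : ℂ[X])) (0 : ℂ) o) * X with hγ
  have hq : ∀ (x : ℂ) k, (MvPolynomial.aeval γ (Q' k)).eval x =
      MvPolynomial.eval (fun o => (γ o).eval x) (Q' k) := by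
    intro x k
    have := MvPolynomial.hom_eval₂ (Q' k) (algebraMap ℂ ℂ[X]) (Polynomial.evalRingHom x) γ
    rw [MvPolynomial.aeval_def]
    have h1 : (Polynomial.evalRingHom x) (MvPolynomial.eval₂ (algebraMap ℂ ℂ[X]) γ (Q' k)) =
      Polynomial.eval x (MvPolynomial.eval₂ (algebraMap ℂ ℂ[X]) γ (Q' k)) := rfl
    rw [← h1, this, MvPolynomial.eval, MvPolynomial.coe_eval₂Hom]
    congr 1
    ext z
    simp
  refine ⟨fun k => MvPolynomial.aeval γ (Q' k), ?_, ?_, ?_⟩
  · intro F hF
    have h1 : MvPolynomial.aeval (fun k => MvPolynomial.aeval γ (Q' k)) F =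
        MvPolynomial.aeval γ (MvPolynomial.aeval Q' F) := by
      exact (MvPolynomial.comp_aeval_apply Q' (MvPolynomial.aeval γ) F).symm
    rw [h1, hΞ F hF, map_zero]
  · intro k
    rw [hq]
    have h1 : (fun o => (γ o).eval 0) = pt (fun a => (e a : ℂ[X])) ((0 : ℕ) : ℂ) := by
      funext o
      simp [hγ]
    rw [h1, hev]
    have h2 : ∀ a, pt (fun a => (e a : ℂ[X])) ((0 : ℕ) : ℂ) (some a) = 1 := by
      intro a
      simp [pt]
    simp_rw [h2]
    simp
  · refine ⟨(∏ a, pt (fun a => (e a : ℂ[X])) ((1 : ℕ) : ℂ) (some a)) ^ KK,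
      pow_ne_zero _ (Finset.prod_ne_zero_iff.2 fun a _ => Complex.exp_ne_zero _), fun k => ?_⟩
    rw [hq]
    have h1 : (fun o => (γ o).eval 1) = pt (fun a => (e a : ℂ[X])) ((1 : ℕ) : ℂ) := by
      funext o
      simp [hγ]
    rw [h1, hev]

end Pool.Agent.K6.H59.EB
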