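import Pool.Agent.H767R2.Weyl
import Pool.Agent.Helper352.Kron

set_option autoImplicit false

/-! # Joint density modulo one of independent real polynomials -/

namespace Pool.Agent.K6.H59.EB

open Polynomial Finset Filter Topology
open Pool.Agent.H767R2 (ee cav weyl_poly)
open Pool.Agent.Helper352 (ker ker_nonneg ker_le_one ker_le_of_far ker_lt_one ker_pow_expand)

/-- all coefficients but the constant one are rational -/
def RatP (f : ℝ[X]) : Prop := ∀ i, 1 ≤ i → ∃ r : ℚ, f.coeff i = r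

theorem ratP_iff (f : ℝ[X]) : RatP f ↔ ∃ (c : ℝ) (g : ℚ[X]), f = C c + g.map (algebraMap ℚ ℝ) := by
  constructor
  · intro h
    choose! r hr using h
    refine ⟨f.coeff 0, ∑ i ∈ Finset.range (f.natDegree + 1), if i = 0 then 0 else monomial i (r i),
      ?_⟩
    ext i
    rw [coeff_add, coeff_map, finsetSum_coeff]
    rcases Nat.eq_zero_or_pos i with hi | hi
    · subst hi
      rw [coeff_C_zero, Finset.sum_eq_zero, map_zero, add_zero]
      intro j _
      split_ifs with hj
      · simp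
      · rw [coeff_monomial, if_neg hj]
    · rw [coeff_C, if_neg (by omega), zero_add]
      by_cases hid : i < f.natDegree + 1
      · rw [Finset.sum_eq_single i, if_neg (by omega), coeff_monomial, if_pos rfl, hr i hi]
        · rfl
        · intro j _ hj
          split_ifs
          · simp
          · rw [coeff_monomial, if_neg hj]
        · intro h; exact absurd (Finset.mem_range.2 hid) h
      · rw [Finset.sum_eq_zero, map_zero, coeff_eq_zero_of_natDegree_lt (by omega)]
        intro j hj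
        rw [Finset.mem_range] at hj
        split_ifs
        · simp
        · rw [coeff_monomial, if_neg (by omega)]
  · rintro ⟨c, g, rfl⟩ i hi
    refine ⟨g.coeff i, ?_⟩
    rw [coeff_add, coeff_C, if_neg (by omega), zero_add, coeff_map]
    rfl

theorem RatP.comp {f : ℝ[X]} (h : RatP f) (A : ℚ[X]) : RatP (f.comp (A.map (algebraMap ℚ ℝ))) := by
  rw [ratP_iff] at h ⊢
  obtain ⟨c, g, rfl⟩ := h
  exact ⟨c, g.comp A, by rw [add_comp, C_comp, Polynomial.map_comp]⟩

theorem ratP_of_comp {f : ℝ[X]} (D ρ : ℕ) (hD : 0 < D) (h : RatP (f.comp (C (D : ℝ) * X + C (ρ : ℝ)))) :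
    RatP f := by
  have h1 := h.comp (C (1 / (D : ℚ)) * (X - C (ρ : ℚ)))
  have hD' : (D : ℝ) ≠ 0 := by exact_mod_cast hD.ne'
  have h2 : (f.comp (C (D : ℝ) * X + C (ρ : ℝ))).comp
      ((C (1 / (D : ℚ)) * (X - C (ρ : ℚ)) : ℚ[X]).map (algebraMap ℚ ℝ)) = f := by
    rw [Polynomial.comp_assoc]
    conv_rhs => rw [← Polynomial.comp_X (p := f)]
    congr 1
    simp only [Polynomial.map_mul, Polynomial.map_sub, Polynomial.map_C, Polynomial.map_X, add_comp,
      mul_comp, C_comp, X_comp]
    rw [← mul_assoc, ← C_mul]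
    have : (D : ℝ) * (algebraMap ℚ ℝ) (1 / (D : ℚ)) = 1 := by
      rw [eq_ratCast]; push_cast; field_simp
    rw [this]
    simp
  rwa [h2] at h1

/-- averages of a nontrivial character -/
theorem avg_ee (f : ℝ[X]) (hf : ¬ RatP f) :
    Tendsto (cav fun n => ee (f.eval (n : ℝ))) atTop (𝓝 0) := by
  apply weyl_poly
  unfold RatP at hf
  push Not at hf
  obtain ⟨i, hi, h⟩ := hf
  refine ⟨i, hi, ?_⟩
  rintro ⟨r, hr⟩
  exact h r hr.symm

variable {s : ℕ}

/-- independence modulo the polynomials with rational nonconstant coefficients -/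
def Indep (q : Fin s → ℝ[X]) : Prop := ∀ h : Fin s → ℤ, RatP (∑ j, C (h j : ℝ) * q j) → h = 0

theorem dense0 (q : Fin s → ℝ[X]) (hq : Indep q) (y : Fin s → ℝ) (ε : ℝ) (hε : 0 < ε) (N0 : ℕ) :
    ∃ n, N0 ≤ n ∧ ∀ j, ∃ m : ℤ, |(q j).eval (n : ℝ) - y j - m| < ε := by
  by_contra hcon
  push Not at hcon
  have hε2 : ε ≤ 1 / 2 := by
    obtain ⟨i, hi⟩ := hcon N0 le_rfl
    exact (hi (round ((q i).eval (N0 : ℝ) - y i))).trans (abs_sub_round _)
  set ρ := ker ε with hρ
  have hρ1 : ρ < 1 := ker_lt_one hε hε2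
  have hρ0 : 0 ≤ ρ := ker_nonneg ε
  have hpt : ∀ N : ℕ, ∀ n : ℕ, N0 ≤ n → ∏ i, ker ((q i).eval (n : ℝ) - y i) ^ N ≤ ρ ^ N := by
    intro N n hn
    obtain ⟨i, hi⟩ := hcon n hn
    rw [← Finset.mul_prod_erase univ _ (Finset.mem_univ i)]
    calc ker ((q i).eval (n : ℝ) - y i) ^ N *
          ∏ x ∈ univ.erase i, ker ((q x).eval (n : ℝ) - y x) ^ N
        ≤ ρ ^ N * 1 := by
          apply mul_le_mul
          · exact pow_le_pow_left₀ (ker_nonneg _) (ker_le_of_far hε hε2 hi) N
          · apply Finset.prod_le_one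
            · intro j _; exact pow_nonneg (ker_nonneg _) N
            · intro j _; exact pow_le_one₀ (ker_nonneg _) (ker_le_one _)
          · apply Finset.prod_nonneg
            intro j _; exact pow_nonneg (ker_nonneg _) N
          · exact pow_nonneg hρ0 N
      _ = ρ ^ N := mul_one _
  have hpt1 : ∀ N : ℕ, ∀ n : ℕ, ∏ i, ker ((q i).eval (n : ℝ) - y i) ^ N ≤ 1 := by
    intro N n
    apply Finset.prod_le_one
    · intro j _; exact pow_nonneg (ker_nonneg _) N
    · intro j _; exact pow_le_one₀ (ker_nonneg _) (ker_le_one _)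
  have hmain : ∀ N : ℕ, (((2 * N).choose N : ℝ) / 4 ^ N) ^ s ≤ ρ ^ N := by
    intro N
    let P : Finset (Fin s → ℕ) := Fintype.piFinset (fun _ : Fin s => range (2 * N + 1))
    let Cf : (Fin s → ℕ) → ℝ := fun k => ∏ i, (((2 * N).choose (k i) : ℝ) / 4 ^ N)
    let Ψ : (Fin s → ℕ) → ℝ := fun k => ∑ i, ((k i : ℝ) - N) * y i
    let Φ : (Fin s → ℕ) → ℝ[X] := fun k => ∑ i, C ((((k i : ℤ) - N : ℤ)) : ℝ) * q i
    let D : (Fin s → ℕ) → ℂ := fun k => (Cf k : ℂ) * ee (- Ψ k)
    have hexp : ∀ n : ℕ, ((∏ i, ker ((q i).eval (n : ℝ) - y i) ^ N : ℝ) : ℂ)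
        = ∑ k ∈ P, D k * ee ((Φ k).eval (n : ℝ)) := by
      intro n
      push_cast
      have : ∀ i, ((ker ((q i).eval (n : ℝ) - y i) : ℝ) : ℂ) ^ N = _ := fun i =>
        ker_pow_expand ((q i).eval (n : ℝ) - y i) N
      rw [Finset.prod_congr rfl (fun i _ => this i), Finset.prod_univ_sum]
      refine Finset.sum_congr rfl ?_
      intro k _
      rw [Finset.prod_mul_distrib, ← Complex.exp_sum, ← Finset.mul_sum]
      simp only [D, Cf, ee]
      conv_rhs => rw [mul_assoc, ← Complex.exp_add]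
      push_cast
      congr 2
      simp only [Φ, Ψ, eval_finsetSum, eval_mul, eval_C]
      push_cast
      have e1 : ∀ a b : ℂ, 2 * (Real.pi : ℂ) * -a * Complex.I + 2 * Real.pi * b * Complex.I =
          2 * Real.pi * Complex.I * (-a + b) := fun a b => by ring
      rw [e1]
      congr 1
      rw [← Finset.sum_neg_distrib, ← Finset.sum_add_distrib]
      refine Finset.sum_congr rfl ?_
      intro i _
      ring
    have hJ : ∀ k, Tendsto (cav fun n => ee ((Φ k).eval (n : ℝ))) atTop
        (𝓝 (if k = fun _ => N then 1 else 0)) := by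
      intro k
      by_cases hk : k = fun _ => N
      · rw [if_pos hk]
        refine Tendsto.congr' ?_ tendsto_const_nhds
        filter_upwards [eventually_gt_atTop 0] with T hT
        have hc0 : Φ k = 0 := by simp only [Φ]; rw [hk]; simp
        rw [cav, hc0]
        simp only [eval_zero, Pool.Agent.H767R2.ee_zero, Finset.sum_const, card_range, nsmul_eq_mul,
          mul_one]
        have : (T : ℂ) ≠ 0 := by exact_mod_cast hT.ne'
        field_simp
      · rw [if_neg hk]
        apply avg_ee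
        intro hr
        have h1 := hq (fun i => (k i : ℤ) - N) hr
        apply hk
        funext i
        have := congrFun h1 i
        simp only [Pi.zero_apply] at this
        omega
    have hsum : Tendsto (fun T => ∑ k ∈ P, D k * cav (fun n => ee ((Φ k).eval (n : ℝ))) T) atTop
        (𝓝 (∑ k ∈ P, D k * (if k = fun _ => N then 1 else 0))) :=
      tendsto_finsetSum _ (fun k _ => (hJ k).const_mul (D k))
    have hval : ∑ k ∈ P, D k * (if k = fun _ => N then 1 else 0) =
        (((((2 * N).choose N : ℝ) / 4 ^ N) ^ s : ℝ) : ℂ) := by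
      have hmem : (fun _ : Fin s => N) ∈ P := by
        rw [Fintype.mem_piFinset]
        intro i
        rw [Finset.mem_range]; omega
      rw [Finset.sum_eq_single (fun _ => N)]
      · rw [if_pos rfl, mul_one]
        have h0 : Ψ (fun _ => N) = 0 := by simp [Ψ]
        simp only [D, Cf, h0, neg_zero, Pool.Agent.H767R2.ee_zero, mul_one, Finset.prod_const,
          Finset.card_univ, Fintype.card_fin]
      · intro k _ hk
        rw [if_neg hk, mul_zero]
      · intro h; exact absurd hmem h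
    rw [hval] at hsum
    have hre : Tendsto (fun T => (∑ k ∈ P, D k * cav (fun n => ee ((Φ k).eval (n : ℝ))) T).re) atTop
        (𝓝 ((((2 * N).choose N : ℝ) / 4 ^ N) ^ s)) := by
      have := (Complex.continuous_re.tendsto _).comp hsum
      rwa [Complex.ofReal_re] at this
    have hid : ∀ T : ℕ, (∑ k ∈ P, D k * cav (fun n => ee ((Φ k).eval (n : ℝ))) T).re
        = (∑ n ∈ range T, ∏ i, ker ((q i).eval (n : ℝ) - y i) ^ N) / T := by
      intro T
      have e1 : (∑ k ∈ P, D k * cav (fun n => ee ((Φ k).eval (n : ℝ))) T)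
          = (((∑ n ∈ range T, ∏ i, ker ((q i).eval (n : ℝ) - y i) ^ N) / T : ℝ) : ℂ) := by
        rw [Complex.ofReal_div, Complex.ofReal_sum, Finset.sum_congr rfl (fun n _ => hexp n)]
        simp only [cav]
        rw [Finset.sum_comm, Finset.sum_div]
        refine Finset.sum_congr rfl fun k _ => ?_
        rw [← Finset.mul_sum]
        push_cast
        ring
      rw [e1, Complex.ofReal_re]
    have hlim : Tendsto (fun T : ℕ => (N0 : ℝ) / T + ρ ^ N) atTop (𝓝 (ρ ^ N)) := by
      have := (tendsto_const_div_atTop_nhds_zero_nat (N0 : ℝ)).add_const (ρ ^ N)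
      rwa [zero_add] at this
    refine le_of_tendsto_of_tendsto hre hlim ?_
    filter_upwards [eventually_gt_atTop 0] with T hT
    have hT' : (0 : ℝ) < T := by exact_mod_cast hT
    rw [hid T, div_le_iff₀ hT']
    have h1 : ∑ n ∈ range T, ∏ i, ker ((q i).eval (n : ℝ) - y i) ^ N ≤
        ∑ n ∈ range T, ((if n < N0 then 1 else 0) + ρ ^ N) := by
      refine Finset.sum_le_sum fun n _ => ?_
      split_ifs with h
      · exact (hpt1 N n).trans (by have := pow_nonneg hρ0 N; linarith)
      · rw [zero_add]; exact hpt N n (by omega)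
    refine h1.trans ?_
    rw [Finset.sum_add_distrib, Finset.sum_const, card_range, nsmul_eq_mul, add_mul,
      div_mul_cancel₀ _ hT'.ne']
    have h2 : (∑ n ∈ range T, (if n < N0 then (1 : ℝ) else 0)) ≤ N0 := by
      rw [Finset.sum_ite, Finset.sum_const_zero, add_zero, Finset.sum_const, nsmul_eq_mul, mul_one]
      have h3 : ((range T).filter (· < N0)).card ≤ (range N0).card := by
        apply Finset.card_le_card
        intro n hn
        rw [Finset.mem_filter] at hn
        exact Finset.mem_range.2 hn.2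
      rw [card_range] at h3
      exact_mod_cast h3
    have h3 : ρ ^ N * (T : ℝ) = T * ρ ^ N := mul_comm _ _
    linarith
  -- contradiction
  have h4 : ∀ N : ℕ, 1 ≤ (2 * (N : ℝ) + 1) ^ s * ρ ^ N := by
    intro N
    have h1 : (4 : ℝ) ^ N ≤ (2 * (N : ℝ) + 1) * (2 * N).choose N := by
      have := Nat.four_pow_le_two_mul_add_one_mul_central_binom N
      have h2 : ((4 ^ N : ℕ) : ℝ) ≤ (((2 * N + 1) * N.centralBinom : ℕ) : ℝ) := by exact_mod_cast this
      rw [Nat.centralBinom_eq_two_mul_choose] at h2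
      push_cast at h2
      exact h2
    have h5 : (1 : ℝ) ≤ (2 * (N : ℝ) + 1) * (((2 * N).choose N : ℝ) / 4 ^ N) := by
      rw [← mul_div_assoc, le_div_iff₀ (by positivity), one_mul]
      exact h1
    calc (1 : ℝ) ≤ ((2 * (N : ℝ) + 1) * (((2 * N).choose N : ℝ) / 4 ^ N)) ^ s := one_le_pow₀ h5
      _ = (2 * (N : ℝ) + 1) ^ s * (((2 * N).choose N : ℝ) / 4 ^ N) ^ s := mul_pow _ _ _
      _ ≤ (2 * (N : ℝ) + 1) ^ s * ρ ^ N := by
          apply mul_le_mul_of_nonneg_left (hmain N) (by positivity)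
  have h5 : Tendsto (fun N : ℕ => (2 * (N : ℝ) + 1) ^ s * ρ ^ N) atTop (𝓝 0) := by
    have h6 : Tendsto (fun N : ℕ => (3 : ℝ) ^ s * ((N : ℝ) ^ s * ρ ^ N)) atTop (𝓝 0) := by
      have := (tendsto_pow_const_mul_const_pow_of_abs_lt_one s
        (by rw [abs_of_nonneg hρ0]; exact hρ1)).const_mul ((3 : ℝ) ^ s)
      rwa [mul_zero] at this
    refine squeeze_zero' (Eventually.of_forall fun N => by positivity) ?_ h6
    filter_upwards [eventually_ge_atTop 1] with N hN
    have hN' : (1 : ℝ) ≤ N := by exact_mod_cast hN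
    rw [← mul_assoc, ← mul_pow]
    gcongr
    linarith
  have h6 := ge_of_tendsto' h5 h4
  linarith

/-- joint density along a residue class -/
theorem dense (q : Fin s → ℝ[X]) (hq : Indep q) (D ρ : ℕ) (hD : 0 < D) (y : Fin s → ℝ) (ε : ℝ)
    (hε : 0 < ε) (N0 : ℕ) :
    ∃ n, N0 ≤ n ∧ n ≡ ρ [MOD D] ∧ ∀ j, ∃ m : ℤ, |(q j).eval (n : ℝ) - y j - m| < ε := by
  obtain ⟨n, hn, h⟩ := dense0 (fun j => (q j).comp (C (D : ℝ) * X + C (ρ : ℝ))) (by
    intro h hr
    apply hq
    apply ratP_of_comp D ρ hD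
    have e1 : (∑ j, C (h j : ℝ) * q j).comp (C (D : ℝ) * X + C (ρ : ℝ)) =
        ∑ j, C (h j : ℝ) * (q j).comp (C (D : ℝ) * X + C (ρ : ℝ)) := by
      rw [Polynomial.sum_comp]
      refine Finset.sum_congr rfl fun j _ => ?_
      rw [mul_comp, C_comp]
    rw [e1]
    exact hr) y ε hε N0
  refine ⟨D * n + ρ, ?_, ?_, fun j => ?_⟩
  · calc N0 ≤ n := hn
      _ ≤ D * n := Nat.le_mul_of_pos_left _ hD
      _ ≤ _ := Nat.le_add_right _ _
  · simp [Nat.ModEq]
  · obtain ⟨m, hm⟩ := h j
    refine ⟨m, ?_⟩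
    have e1 : ((q j).comp (C (D : ℝ) * X + C (ρ : ℝ))).eval (n : ℝ) =
        (q j).eval ((D * n + ρ : ℕ) : ℝ) := by
      rw [eval_comp]; simp
    rwa [e1] at hm

end Pool.Agent.K6.H59.EB
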