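import Mathlib

set_option autoImplicit false

/-! # Comparison of growth -/

namespace Pool.Agent.K6.H59.EB

open Polynomial Finset Filter Topology

/-- `x ^ k * exp (x * c(x))` -/
noncomputable def gr (j : ℕ × ℝ[X]) (x : ℝ) : ℝ := x ^ j.1 * Real.exp (x * j.2.eval x)

theorem gr_pos (j : ℕ × ℝ[X]) {x : ℝ} (hx : 0 < x) : 0 < gr j x := by
  rw [gr]; positivity

theorem sep (e : ℝ[X]) (he : e ≠ 0) : ∃ ε : ℝ, 0 < ε ∧
    ((∀ᶠ x : ℝ in atTop, ε ≤ e.eval x) ∨ (∀ᶠ x : ℝ in atTop, e.eval x ≤ -ε)) := by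
  rcases Nat.eq_zero_or_pos e.natDegree with h0 | h0
  · obtain ⟨a, ha⟩ : ∃ a : ℝ, e = C a := ⟨_, eq_C_of_natDegree_eq_zero h0⟩
    have ha0 : a ≠ 0 := by
      rintro rfl
      exact he (by rw [ha, C_0])
    refine ⟨|a|, abs_pos.2 ha0, ?_⟩
    rcases lt_or_gt_of_ne ha0 with h | h
    · right
      refine Eventually.of_forall fun x => ?_
      rw [ha, eval_C, abs_of_neg h, neg_neg]
    · left
      refine Eventually.of_forall fun x => ?_
      rw [ha, eval_C, abs_of_pos h]
  · refine ⟨1, one_pos, ?_⟩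
    have hd : 0 < e.degree := natDegree_pos_iff_degree_pos.1 h0
    rcases le_total 0 e.leadingCoeff with h | h
    · left
      exact (e.tendsto_atTop_of_leadingCoeff_nonneg hd h).eventually_ge_atTop 1
    · right
      exact (e.tendsto_atBot_of_leadingCoeff_nonpos hd h).eventually_le_atBot (-1)

theorem gr_small (i j : ℕ × ℝ[X]) (ε : ℝ) (hε : 0 < ε)
    (h : ∀ᶠ x : ℝ in atTop, (i.2 - j.2).eval x ≤ -ε) :
    Tendsto (fun n : ℕ => gr i n / gr j n) atTop (𝓝 0) := by
  have h1 : Tendsto (fun n : ℕ => (n : ℝ) ^ i.1 * (Real.exp (-ε)) ^ n) atTop (𝓝 0) :=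
    tendsto_pow_const_mul_const_pow_of_abs_lt_one i.1 (by
      rw [abs_of_pos (Real.exp_pos _)]
      rw [← Real.exp_zero]
      exact Real.exp_lt_exp.2 (by linarith))
  refine squeeze_zero' ?_ ?_ h1
  · filter_upwards [eventually_gt_atTop 0] with n hn
    have hn' : (0 : ℝ) < n := by exact_mod_cast hn
    exact div_nonneg (gr_pos _ hn').le (gr_pos _ hn').le
  · have h2 := tendsto_natCast_atTop_atTop (R := ℝ) |>.eventually h
    filter_upwards [eventually_ge_atTop 1, h2] with n hn h3
    have hn' : (1 : ℝ) ≤ n := by exact_mod_cast hn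
    have hn0 : (0 : ℝ) < n := by linarith
    rw [div_le_iff₀ (gr_pos _ hn0), gr, gr, ← Real.exp_nat_mul, mul_assoc]
    apply mul_le_mul_of_nonneg_left _ (by positivity)
    have h4 : Real.exp ((n : ℝ) * eval (n : ℝ) i.2) ≤
        Real.exp ((n : ℝ) * -ε) * Real.exp ((n : ℝ) * eval (n : ℝ) j.2) := by
      rw [← Real.exp_add]
      apply Real.exp_le_exp.2
      rw [eval_sub] at h3
      nlinarith
    refine h4.trans ?_
    apply mul_le_mul_of_nonneg_left _ (Real.exp_pos _).le
    have h5 : (1 : ℝ) ≤ (n : ℝ) ^ j.1 := one_le_pow₀ hn'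
    have h6 := Real.exp_pos ((n : ℝ) * eval (n : ℝ) j.2)
    nlinarith

theorem gr_cmp (i j : ℕ × ℝ[X]) (h : i ≠ j) :
    Tendsto (fun n : ℕ => gr i n / gr j n) atTop (𝓝 0) ∨
      Tendsto (fun n : ℕ => gr j n / gr i n) atTop (𝓝 0) := by
  by_cases h2 : i.2 = j.2
  · have key : ∀ a b : ℕ × ℝ[X], a.2 = b.2 → a.1 < b.1 →
        Tendsto (fun n : ℕ => gr a n / gr b n) atTop (𝓝 0) := by
      intro a b hab h1
      obtain ⟨k, hk⟩ := Nat.exists_eq_add_of_lt h1
      have h3 : Tendsto (fun n : ℕ => (1 : ℝ) / n) atTop (𝓝 0) := tendsto_one_div_atTop_nhds_zero_nat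
      refine squeeze_zero' ?_ ?_ h3
      · filter_upwards [eventually_gt_atTop 0] with n hn
        have hn' : (0 : ℝ) < n := by exact_mod_cast hn
        exact div_nonneg (gr_pos _ hn').le (gr_pos _ hn').le
      · filter_upwards [eventually_ge_atTop 1] with n hn
        have hn' : (1 : ℝ) ≤ n := by exact_mod_cast hn
        have hn0 : (0 : ℝ) < n := by linarith
        rw [div_le_div_iff₀ (gr_pos _ hn0) hn0, gr, gr, hab, hk]
        have h4 := Real.exp_pos ((n : ℝ) * eval (n : ℝ) b.2)
        have h5 : (n : ℝ) ^ a.1 * n ≤ (n : ℝ) ^ (a.1 + k + 1) := by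
          rw [← pow_succ]
          exact pow_le_pow_right₀ hn' (by omega)
        nlinarith
    have h1 : i.1 ≠ j.1 := fun h1 => h (Prod.ext h1 h2)
    rcases lt_or_gt_of_ne h1 with h3 | h3
    · exact Or.inl (key i j h2 h3)
    · exact Or.inr (key j i h2.symm h3)
  · obtain ⟨ε, hε, h3 | h3⟩ := sep (i.2 - j.2) (sub_ne_zero.2 h2)
    · right
      apply gr_small j i ε hε
      filter_upwards [h3] with x hx
      rw [eval_sub] at hx ⊢
      linarith
    · left
      exact gr_small i j ε hε h3

theorem exists_dom (S : Finset (ℕ × ℝ[X])) (hS : S.Nonempty) :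
    ∃ m ∈ S, ∀ j ∈ S, j ≠ m → Tendsto (fun n : ℕ => gr j n / gr m n) atTop (𝓝 0) := by
  classical
  induction hS using Finset.Nonempty.cons_induction with
  | singleton a => exact ⟨a, by simp, fun j hj h => absurd (by simpa using hj) h⟩
  | cons a S ha hS ih =>
    obtain ⟨m, hm, hdom⟩ := ih
    have ham : a ≠ m := fun h => ha (h ▸ hm)
    rcases gr_cmp a m ham with h | h
    · refine ⟨m, by simp [hm], fun j hj hjm => ?_⟩
      rw [Finset.mem_cons] at hj
      rcases hj with rfl | hj
      · exact h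
      · exact hdom j hj hjm
    · refine ⟨a, by simp, fun j hj hja => ?_⟩
      rw [Finset.mem_cons] at hj
      rcases hj with rfl | hj
      · exact absurd rfl hja
      · by_cases hjm : j = m
        · rw [hjm]; exact h
        · have h1 := (hdom j hj hjm).mul h
          rw [mul_zero] at h1
          refine h1.congr' ?_
          filter_upwards [eventually_gt_atTop 0] with n hn
          have hn' : (0 : ℝ) < n := by exact_mod_cast hn
          have := (gr_pos m hn').ne'
          field_simp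

/-- If a combination of growth functions with bounded coefficients vanishes on `T`, and those
coefficients which tend to `0` along `T` vanish on `T`, then all coefficients vanish on `T`. -/
theorem dom (T : Set ℕ) (H : ℕ × ℝ[X] → ℕ → ℂ) (S : Finset (ℕ × ℝ[X]))
    (hb : ∀ j ∈ S, ∃ B : ℝ, ∀ n ∈ T, ‖H j n‖ ≤ B)
    (hz : ∀ j ∈ S, Tendsto (H j) (atTop ⊓ 𝓟 T) (𝓝 0) → ∀ n ∈ T, H j n = 0)
    (h0 : ∀ n ∈ T, ∑ j ∈ S, (gr j n : ℂ) * H j n = 0) : ∀ j ∈ S, ∀ n ∈ T, H j n = 0 := by
  classical
  induction S using Finset.strongInduction with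
  | H S ih =>
    rcases S.eq_empty_or_nonempty with rfl | hS
    · intro j hj; exact absurd hj (by simp)
    obtain ⟨m, hm, hdom⟩ := exists_dom S hS
    choose! B hB using hb
    have hm0 : ∀ n ∈ T, H m n = 0 := by
      apply hz m hm
      have h1 : Tendsto (fun n : ℕ => ∑ j ∈ S.erase m, gr j n / gr m n * |B j|) atTop (𝓝 0) := by
        have : (0 : ℝ) = ∑ j ∈ S.erase m, 0 * |B j| := by simp
        rw [this]
        refine tendsto_finsetSum _ fun j hj => ?_
        rw [Finset.mem_erase] at hj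
        exact (hdom j hj.2 hj.1).mul_const _
      rw [tendsto_zero_iff_norm_tendsto_zero]
      refine squeeze_zero' (Eventually.of_forall fun n => norm_nonneg _) ?_
        (h1.mono_left inf_le_left)
      rw [eventually_inf_principal]
      filter_upwards [eventually_gt_atTop 0] with n hn hnT
      have hn' : (0 : ℝ) < n := by exact_mod_cast hn
      have hg : (gr m n : ℂ) ≠ 0 := by exact_mod_cast (gr_pos m hn').ne'
      have h2 := h0 n hnT
      rw [← Finset.add_sum_erase _ _ hm] at h2
      have h3 : H m n = - ∑ j ∈ S.erase m, (gr j n / gr m n : ℂ) * H j n := by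
        have h4 : (gr m n : ℂ) * H m n = (gr m n : ℂ) *
            (- ∑ j ∈ S.erase m, (gr j n / gr m n : ℂ) * H j n) := by
          rw [mul_neg, Finset.mul_sum, eq_neg_iff_add_eq_zero, ← h2]
          congr 1
          refine Finset.sum_congr rfl fun j _ => ?_
          field_simp
        exact mul_left_cancel₀ hg h4
      rw [h3, norm_neg]
      refine (norm_sum_le _ _).trans (Finset.sum_le_sum fun j hj => ?_)
      rw [Finset.mem_erase] at hj
      rw [norm_mul]
      have h5 : ‖(gr j n / gr m n : ℂ)‖ = gr j n / gr m n := by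
        rw [← Complex.ofReal_div, Complex.norm_real, Real.norm_of_nonneg
          (div_nonneg (gr_pos _ hn').le (gr_pos _ hn').le)]
      rw [h5]
      exact mul_le_mul_of_nonneg_left ((hB j hj.2 n hnT).trans (le_abs_self _))
        (div_nonneg (gr_pos _ hn').le (gr_pos _ hn').le)
    have h6 := ih (S.erase m) (Finset.erase_ssubset hm)
      (fun j hj => ⟨B j, hB j (Finset.mem_of_mem_erase hj)⟩)
      (fun j hj => hz j (Finset.mem_of_mem_erase hj))
      (fun n hn => by
        have h2 := h0 n hn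
        rw [← Finset.add_sum_erase _ _ hm, hm0 n hn, mul_zero, zero_add] at h2
        exact h2)
    intro j hj n hn
    by_cases hjm : j = m
    · rw [hjm]; exact hm0 n hn
    · exact h6 j (Finset.mem_erase.2 ⟨hjm, hj⟩) n hn

end Pool.Agent.K6.H59.EB
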