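import Pool.Agent.K6.H59.EB.StepA2
import Pool.Agent.K6.H59.EB.Curve

set_option autoImplicit false

/-! # Exponential bracket polynomials on projective varieties -/

namespace Pool.Agent.K6.H59.EB

open Polynomial Finset Filter Topology

/-- good logarithms of powers -/
theorem good_logs {t : ℕ} (g : Fin t → ℂ) (hg : ∀ l, g l ≠ 0) :
    ∃ (M : ℕ) (G : Fin t → ℂ) (V : Submodule ℚ ℂ), 0 < M ∧
      (∀ v ∈ V, ∀ x : ℚ, v = 2 * Real.pi * Complex.I * x → v = 0) ∧ (∀ l, G l ∈ V) ∧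
      ∀ l, Complex.exp (G l) = g l ^ M := by
  classical
  set w : ℂ := 2 * Real.pi * Complex.I with hw
  obtain ⟨V, hV⟩ := Submodule.exists_isCompl (Submodule.span ℚ {w})
  have h1 : ∀ l, ∃ (x : ℚ) (v : ℂ), v ∈ V ∧ Complex.log (g l) = x • w + v := by
    intro l
    have h2 : Complex.log (g l) ∈ Submodule.span ℚ {w} ⊔ V := by
      rw [hV.sup_eq_top]; trivial
    obtain ⟨u, hu, v, hv, huv⟩ := Submodule.mem_sup.1 h2
    obtain ⟨x, rfl⟩ := Submodule.mem_span_singleton.1 hu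
    exact ⟨x, v, hv, huv.symm⟩
  choose x v hv hx using h1
  refine ⟨∏ l, (x l).den, fun l => ((∏ l, (x l).den : ℕ) : ℚ) • v l, V,
    Finset.prod_pos fun l _ => (x l).den_pos, ?_, fun l => V.smul_mem _ (hv l), ?_⟩
  · intro u hu y hy
    have h2 : u ∈ Submodule.span ℚ {w} := by
      rw [Submodule.mem_span_singleton]
      refine ⟨y, ?_⟩
      rw [hy, Algebra.smul_def, mul_comm]
      rfl
    have h3 := hV.disjoint.le_bot (Submodule.mem_inf.2 ⟨h2, hu⟩)
    exact (Submodule.mem_bot ℚ).1 h3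
  · intro l
    set M := ∏ l, (x l).den with hM
    obtain ⟨a, ha⟩ : (x l).den ∣ M := Finset.dvd_prod_of_mem (fun l => (x l).den) (Finset.mem_univ l)
    have h2 : ((M : ℕ) : ℚ) • v l = (M : ℂ) * Complex.log (g l) - ((x l).num * a : ℤ) * w := by
      have h3 : v l = Complex.log (g l) - (x l : ℂ) * w := by
        rw [hx l, Algebra.smul_def]
        simp
      have h4 : (M : ℂ) * (x l : ℂ) = ((x l).num * a : ℤ) := by
        have h5 : (M : ℚ) * x l = (x l).num * a := by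
          rw [ha]
          have := Rat.mul_den_eq_num (x l)
          push_cast
          linear_combination (a : ℚ) * this
        have h6 := congrArg (fun z : ℚ => (z : ℂ)) h5
        push_cast at h6 ⊢
        exact h6
      rw [h3, Algebra.smul_def, mul_sub, ← h4]
      simp
      ring
    change Complex.exp (((M : ℕ) : ℚ) • v l) = g l ^ M
    rw [h2, Complex.exp_sub, Complex.exp_nat_mul, Complex.exp_log (hg l)]
    have h7 : Complex.exp (((x l).num * a : ℤ) * w) = 1 := Complex.exp_int_mul_two_pi_mul_I _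
    rw [h7, div_one]

/-- the vector -/
noncomputable def vec {r t N : ℕ} (p : Fin r → ℝ[X]) (g : Fin t → ℂ)
    (Pp : Fin (N + 1) → MvPolynomial (Fin r ⊕ (Fin t × Fin r)) ℂ) (n : ℕ) (k : Fin (N + 1)) : ℂ :=
  MvPolynomial.eval (Sum.elim (fun i => ((⌊(p i).eval (n : ℝ)⌋ : ℤ) : ℂ))
    (fun li => g li.1 ^ ⌊(p li.2).eval (n : ℝ)⌋)) (Pp k)

/-- a floor is locally constant away from the integers -/
theorem floor_near {x : ℝ} (hx : ∀ z : ℤ, x ≠ z) : ∃ η : ℝ, 0 < η ∧ ∀ y : ℝ, |y - x| < η → ⌊y⌋ = ⌊x⌋ := by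
  have h1 : (⌊x⌋ : ℝ) < x := lt_of_le_of_ne (Int.floor_le x) (fun h => hx _ h.symm)
  have h2 : x < ⌊x⌋ + 1 := Int.lt_floor_add_one x
  refine ⟨min (x - ⌊x⌋) (⌊x⌋ + 1 - x), lt_min (by linarith) (by linarith), fun y hy => ?_⟩
  rw [Int.floor_eq_iff]
  have h3 := lt_of_lt_of_le hy (min_le_left _ _)
  have h4 := lt_of_lt_of_le hy (min_le_right _ _)
  rw [abs_lt] at h3 h4
  constructor <;> linarith

theorem main (r t : ℕ) (p : Fin r → ℝ[X]) (g : Fin t → ℂ) (hg : ∀ l, g l ≠ 0) :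
    ∃ (T : Type) (lab : ℕ → T), (Set.range lab).Finite ∧
      ∀ (N : ℕ) (FF : Set (MvPolynomial (Fin (N + 1)) ℂ)), (∀ F ∈ FF, ∃ m, F.IsHomogeneous m) →
      ∀ Pp : Fin (N + 1) → MvPolynomial (Fin r ⊕ (Fin t × Fin r)) ℂ,
      (∀ n : ℕ, ∀ F ∈ FF, MvPolynomial.eval (vec p g Pp n) F = 0) →
      ∀ n₁ n₂ : ℕ, lab n₁ = lab n₂ → n₁ = n₂ ∨
        ∃ q : Fin (N + 1) → ℂ[X], (∀ F ∈ FF, MvPolynomial.aeval q F = 0) ∧
          (∀ k, (q k).eval 0 = vec p g Pp n₁ k) ∧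
          ∃ c : ℂ, c ≠ 0 ∧ ∀ k, (q k).eval 1 = c * vec p g Pp n₂ k := by
  classical
  obtain ⟨M, G, V, hM, hV, hGV, hG⟩ := good_logs g hg
  have hMR : (0 : ℝ) < M := by exact_mod_cast hM
  -- the basis
  set P : Fin r → ℝ[X] := fun i => C (1 / (M : ℝ)) * p i with hP
  obtain ⟨s, q, hq, hc⟩ := exists_basis_poly (Sum.elim P
    (fun li : Fin t × Fin r => C ((G li.1).im / (2 * Real.pi)) * P li.2))
  choose c hc using hc
  set C0 : Fin r → Fin s → ℤ := fun i => c (Sum.inl i) with hC0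
  set C1 : Fin t → Fin r → Fin s → ℤ := fun l i => c (Sum.inr (l, i)) with hC1
  set R0 : Fin r → ℝ[X] := fun i => P i - ∑ j, C (C0 i j : ℝ) * q j with hR0
  set R1 : Fin t → Fin r → ℝ[X] := fun l i =>
    C ((G l).im / (2 * Real.pi)) * P i - ∑ j, C (C1 l i j : ℝ) * q j with hR1
  have hR0r : ∀ i, RatP (R0 i) := fun i => hc (Sum.inl i)
  have hR1r : ∀ l i, RatP (R1 l i) := fun l i => hc (Sum.inr (l, i))
  have hP0 : ∀ i, P i = ∑ j, C (C0 i j : ℝ) * q j + R0 i := fun i => by rw [hR0]; ring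
  have hP1 : ∀ l i, C ((G l).im / (2 * Real.pi)) * P i = ∑ j, C (C1 l i j : ℝ) * q j + R1 l i :=
    fun l i => by rw [hR1]; ring
  obtain ⟨D, hD, hDz⟩ := exists_denom (Sum.elim R0 (fun li : Fin t × Fin r => R1 li.1 li.2)) (by
    rintro (i | li)
    · exact hR0r i
    · exact hR1r li.1 li.2)
  have hD0 : ∀ i, ∀ n m : ℤ, (D : ℤ) ∣ n - m →
      ∃ z : ℤ, (R0 i).eval (n : ℝ) - (R0 i).eval (m : ℝ) = z := fun i => hDz (Sum.inl i)
  have hD1 : ∀ l i, ∀ n m : ℤ, (D : ℤ) ∣ n - m →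
      ∃ z : ℤ, (R1 l i).eval (n : ℝ) - (R1 l i).eval (m : ℝ) = z := fun l i =>
    hDz (Sum.inr (l, i))
  -- the main relation
  set fr : ℕ → Fin s → ℝ := fun n j => Int.fract ((q j).eval (n : ℝ)) with hfr
  set fl : ℕ → Fin s → ℤ := fun n j => ⌊(q j).eval (n : ℝ)⌋ with hfl
  set Y : ℕ → (Fin s → ℝ) → Fin r → ℝ := fun ρ y i => M * af (C0 i) ((R0 i).eval (ρ : ℝ)) y with hY
  have hrel : ∀ (n ρ : ℕ) i, (p i).eval (n : ℝ) = M * zz C0 R0 ρ n (fl n) i + Y ρ (fr n) i := by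
    intro n ρ i
    have h1 : (p i).eval (n : ℝ) = M * (P i).eval (n : ℝ) := by
      rw [hP]
      simp only [eval_mul, eval_C]
      field_simp
    rw [h1, hP0 i, eval_add, eval_finsetSum]
    simp only [eval_mul, eval_C, hY, zz, af, Int.cast_natCast]
    rw [← mul_add]
    congr 1
    have h2 : ∀ j, (C0 i j : ℝ) * (q j).eval (n : ℝ) =
        (C0 i j : ℝ) * (fl n j : ℝ) + (C0 i j : ℝ) * fr n j := by
      intro j
      rw [hfl, hfr]
      simp only
      rw [← mul_add, Int.floor_add_fract]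
    simp_rw [h2]
    rw [Finset.sum_add_distrib]
    ring
  have hzint : ∀ (n : ℤ) (ρ : ℕ) (ω : Fin s → ℤ) i, (D : ℤ) ∣ n - ρ →
      ∃ z : ℤ, zz C0 R0 ρ n ω i = z := by
    intro n ρ ω i hn
    obtain ⟨z, hz⟩ := hD0 i n ρ hn
    refine ⟨∑ j, C0 i j * ω j + z, ?_⟩
    rw [Int.cast_natCast] at hz
    rw [zz, hz]
    push_cast
    rfl
  -- the cell of an integer
  set ecell : ℕ → Fin r → ℤ := fun n i => ⌊Y (n % D) (fr n) i⌋ with hecell
  have hDmod : ∀ n : ℕ, (D : ℤ) ∣ (n : ℤ) - ((n % D : ℕ) : ℤ) := by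
    intro n
    have h1 : n % D ≡ n [MOD D] := Nat.mod_modEq n D
    exact Nat.modEq_iff_dvd.1 h1
  have hfloor : ∀ (n ρ : ℕ) i, (D : ℤ) ∣ (n : ℤ) - ρ → ∀ e : ℤ, ⌊Y ρ (fr n) i⌋ = e →
      ∃ z : ℤ, zz C0 R0 ρ n (fl n) i = z ∧ ⌊(p i).eval (n : ℝ)⌋ = M * z + e := by
    intro n ρ i hn e he
    obtain ⟨z, hz⟩ := hzint n ρ (fl n) i hn
    refine ⟨z, hz, ?_⟩
    rw [hrel n ρ i, hz]
    have e1 : (M : ℝ) * (z : ℝ) + Y ρ (fr n) i = ((M * z : ℤ) : ℝ) + Y ρ (fr n) i := by push_cast; ring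
    rw [e1, Int.floor_intCast_add, he]
  -- bad integers
  set Bad : Set ℕ := (⋃ j, {n : ℕ | ∃ z : ℤ, (q j).eval (n : ℝ) = z}) ∪
    ⋃ i ∈ {i : Fin r | C0 i ≠ 0}, {n : ℕ | ∃ z : ℤ, (p i).eval (n : ℝ) = z} with hBad
  have hBadfin : Bad.Finite := by
    refine Set.Finite.union (Set.finite_iUnion fun j => finite_int _ ?_)
      (Set.Finite.biUnion (Set.toFinite _) fun i hi => finite_int _ ?_)
    · intro hr
      have h1 := hq (Pi.single j 1) (by
        rw [Finset.sum_eq_single j]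
        · rw [Pi.single_eq_same]; simpa using hr
        · intro b _ hb
          rw [Pi.single_eq_of_ne hb]; simp
        · intro h; exact absurd (Finset.mem_univ j) h)
      have h2 := congrFun h1 j
      rw [Pi.single_eq_same] at h2
      exact absurd h2 (by simp)
    · intro hr
      apply hi
      apply hq
      have h1 : ∑ j, C (C0 i j : ℝ) * q j = C (1 / (M : ℝ)) * p i - R0 i := by
        rw [hR0, hP]; ring
      rw [h1]
      have h2 : C (1 / (M : ℝ)) * p i ∈ ratSub := by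
        intro k hk
        obtain ⟨x, hx⟩ := hr k hk
        exact ⟨1 / M * x, by rw [coeff_C_mul, hx]; push_cast; ring⟩
      exact ratSub.sub_mem h2 (hR0r i)
  -- finitely many cells
  have hcellfin : (Set.range fun n : ℕ => (n % D, ecell n)).Finite := by
    set E : ℤ := ∑ i, ∑ ρ ∈ Finset.range D, ⌈(M : ℝ) * (∑ j, |(C0 i j : ℝ)| + |(R0 i).eval (ρ : ℝ)|)⌉ + 1
      with hE
    have hsub : (Set.range fun n : ℕ => (n % D, ecell n)) ⊆
        (Set.Iio D) ×ˢ (Set.pi Set.univ fun _ : Fin r => Set.Icc (-E) E) := by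
      rintro _ ⟨n, rfl⟩
      refine ⟨Nat.mod_lt n hD, fun i _ => ?_⟩
      have hb : |Y (n % D) (fr n) i| ≤
          (M : ℝ) * (∑ j, |(C0 i j : ℝ)| + |(R0 i).eval ((n % D : ℕ) : ℝ)|) := by
        simp only [hY, af]
        rw [abs_mul, abs_of_pos hMR]
        apply mul_le_mul_of_nonneg_left _ hMR.le
        refine (abs_add_le _ _).trans (add_le_add ?_ le_rfl)
        refine (Finset.abs_sum_le_sum_abs _ _).trans (Finset.sum_le_sum fun j _ => ?_)
        rw [abs_mul]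
        have h1 : |fr n j| ≤ 1 := by
          rw [hfr]
          simp only
          rw [abs_of_nonneg (Int.fract_nonneg _)]
          exact (Int.fract_lt_one _).le
        have h2 := abs_nonneg (C0 i j : ℝ)
        nlinarith
      set A : Fin r → ℕ → ℤ := fun i ρ =>
        ⌈(M : ℝ) * (∑ j, |(C0 i j : ℝ)| + |(R0 i).eval (ρ : ℝ)|)⌉ with hA
      have hA0 : ∀ i ρ, 0 ≤ A i ρ := fun i ρ => Int.ceil_nonneg (by positivity)
      have hAE : A i (n % D) + 1 ≤ E := by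
        have h1 : A i (n % D) ≤ ∑ ρ ∈ Finset.range D, A i ρ :=
          Finset.single_le_sum (f := fun ρ => A i ρ) (fun ρ _ => hA0 i ρ)
            (Finset.mem_range.2 (Nat.mod_lt n hD))
        have h2 : ∑ ρ ∈ Finset.range D, A i ρ ≤ ∑ i, ∑ ρ ∈ Finset.range D, A i ρ :=
          Finset.single_le_sum (f := fun i => ∑ ρ ∈ Finset.range D, A i ρ)
            (fun i _ => Finset.sum_nonneg fun ρ _ => hA0 i ρ) (Finset.mem_univ i)
        linarith
      have h3 : |Y (n % D) (fr n) i| ≤ A i (n % D) := hb.trans (Int.le_ceil _)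
      rw [abs_le] at h3
      have h4 : ((A i (n % D) : ℤ) : ℝ) + 1 ≤ E := by exact_mod_cast hAE
      constructor
      · rw [hecell]
        simp only
        rw [Int.le_floor]
        push_cast
        linarith
      · rw [hecell]
        simp only
        have h5 := Int.floor_le (Y (n % D) (fr n) i)
        have h6 : ((⌊Y (n % D) (fr n) i⌋ : ℤ) : ℝ) ≤ E := by linarith
        exact_mod_cast h6
    exact Set.Finite.subset ((Set.finite_Iio D).prod (Set.Finite.pi fun _ => Set.finite_Icc _ _)) hsub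
  -- labels
  refine ⟨(ℕ × (Fin r → ℤ)) ⊕ ℕ, fun n => if n ∈ Bad then Sum.inr n else Sum.inl (n % D, ecell n),
    ?_, ?_⟩
  · refine Set.Finite.subset ((hcellfin.image Sum.inl).union (hBadfin.image Sum.inr)) ?_
    rintro _ ⟨n, rfl⟩
    by_cases hn : n ∈ Bad
    · right
      simp only [if_pos hn]
      exact ⟨n, hn, rfl⟩
    · left
      simp only [if_neg hn]
      exact ⟨_, ⟨n, rfl⟩, rfl⟩
  intro N FF hom Pp hx n₁ n₂ hlab
  simp only at hlab
  by_cases hb1 : n₁ ∈ Bad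
  · rw [if_pos hb1] at hlab
    by_cases hb2 : n₂ ∈ Bad
    · rw [if_pos hb2] at hlab
      exact Or.inl (Sum.inr_injective hlab)
    · rw [if_neg hb2] at hlab
      exact absurd hlab (by simp)
  rw [if_neg hb1] at hlab
  by_cases hb2 : n₂ ∈ Bad
  · rw [if_pos hb2] at hlab
    exact absurd hlab (by simp)
  rw [if_neg hb2] at hlab
  right
  have hlab' := Sum.inl_injective hlab
  have hmod : n₁ % D = n₂ % D := congrArg Prod.fst hlab'
  have hcell : ecell n₁ = ecell n₂ := congrArg Prod.snd hlab'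
  set ρ := n₁ % D with hρ
  set e := ecell n₁ with he
  have he1 : ∀ i, ⌊Y ρ (fr n₁) i⌋ = e i := fun i => rfl
  have he2 : ∀ i, ⌊Y ρ (fr n₂) i⌋ = e i := fun i => by
    rw [hmod, hcell]
  have hd1 : (D : ℤ) ∣ (n₁ : ℤ) - (ρ : ℕ) := hDmod n₁
  have hd2 : (D : ℤ) ∣ (n₂ : ℤ) - (ρ : ℕ) := by rw [hmod]; exact hDmod n₂
  -- the substitution
  set Ph : Fin (N + 1) → MvPolynomial (Fin r ⊕ (Fin t × Fin r)) ℂ := fun k =>
    MvPolynomial.aeval (Sum.elim
      (fun i => MvPolynomial.C (M : ℂ) * MvPolynomial.X (Sum.inl i) + MvPolynomial.C ((e i : ℤ) : ℂ))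
      (fun li => MvPolynomial.C (g li.1 ^ (e li.2)) * MvPolynomial.X (Sum.inr li))) (Pp k) with hPh
  have hPhev : ∀ (x : Fin r ⊕ (Fin t × Fin r) → ℂ) k, MvPolynomial.eval x (Ph k) =
      MvPolynomial.eval (Sum.elim (fun i => (M : ℂ) * x (Sum.inl i) + (e i : ℤ))
        (fun li => g li.1 ^ (e li.2) * x (Sum.inr li))) (Pp k) := by
    intro x k
    rw [hPh]
    simp only
    rw [MvPolynomial.aeval_def, MvPolynomial.hom_eval₂, MvPolynomial.eval, MvPolynomial.coe_eval₂Hom,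
      MvPolynomial.eval, MvPolynomial.coe_eval₂Hom]
    congr 1
    · ext z
      simp
    · funext v
      rcases v with i | li
      · simp
      · simp
  -- the values at integral points
  have hvec : ∀ n : ℕ, (D : ℤ) ∣ (n : ℤ) - (ρ : ℕ) → (∀ i, ⌊Y ρ (fr n) i⌋ = e i) → ∀ k,
      MvPolynomial.eval (Sum.elim (fun i => ((zz C0 R0 ρ n (fl n) i : ℝ) : ℂ))
        (fun li => Complex.exp (G li.1 * (zz C0 R0 ρ n (fl n) li.2 : ℝ)))) (Ph k) =
      vec p g Pp n k := by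
    intro n hn hen k
    rw [hPhev, vec]
    congr 2
    funext v
    rcases v with i | li
    · simp only [Sum.elim_inl]
      obtain ⟨z, hz1, hz2⟩ := hfloor n ρ i hn (e i) (hen i)
      rw [hz1, hz2]
      push_cast
      ring
    · simp only [Sum.elim_inr]
      obtain ⟨z, hz1, hz2⟩ := hfloor n ρ li.2 hn (e li.2) (hen li.2)
      rw [hz1, hz2, zpow_add₀ (hg li.1), zpow_mul, zpow_natCast, ← hG li.1, mul_comm]
      congr 1
      rw [← Complex.exp_int_mul]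
      congr 1
      push_cast
      ring
  -- the neighbourhood
  have hgoodq : ∀ j, ∀ z : ℤ, (q j).eval (n₁ : ℝ) ≠ z := by
    intro j z hz
    apply hb1
    rw [hBad]
    exact Or.inl (Set.mem_iUnion.2 ⟨j, z, hz⟩)
  have hgoodp : ∀ i, C0 i ≠ 0 → ∀ z : ℤ, (p i).eval (n₁ : ℝ) ≠ z := by
    intro i hi z hz
    apply hb1
    rw [hBad]
    exact Or.inr (Set.mem_biUnion (show i ∈ {i : Fin r | C0 i ≠ 0} from hi) ⟨z, hz⟩)
  have hfr01 : ∀ j, 0 < fr n₁ j ∧ fr n₁ j < 1 := by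
    intro j
    refine ⟨lt_of_le_of_ne (Int.fract_nonneg _) fun h => ?_, Int.fract_lt_one _⟩
    apply hgoodq j ⌊(q j).eval (n₁ : ℝ)⌋
    have h1 := Int.floor_add_fract ((q j).eval (n₁ : ℝ))
    have h2 : Int.fract ((q j).eval (n₁ : ℝ)) = 0 := h.symm
    rw [h2, add_zero] at h1
    exact h1.symm
  -- epsilons
  have hev1 : ∀ j, ∀ᶠ ε : ℝ in 𝓝[>] 0, ε < fr n₁ j ∧ fr n₁ j < 1 - ε := by
    intro j
    have h1 := hfr01 j
    apply Filter.Eventually.and
    · exact nhdsWithin_le_nhds (Iio_mem_nhds h1.1)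
    · have : ∀ᶠ ε : ℝ in 𝓝 0, ε < 1 - fr n₁ j := Iio_mem_nhds (by linarith)
      filter_upwards [nhdsWithin_le_nhds this] with ε hε
      linarith
  have hev2 : ∀ i, ∀ᶠ ε : ℝ in 𝓝[>] 0, ∀ y : Fin s → ℝ, (∀ j, |y j - fr n₁ j| < ε) →
      ⌊Y ρ y i⌋ = e i := by
    intro i
    by_cases hi : C0 i = 0
    · refine Eventually.of_forall fun ε y _ => ?_
      rw [← he1 i]
      simp only [hY, af, hi]
      simp
    · have hni : ∀ z : ℤ, Y ρ (fr n₁) i ≠ z := by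
        intro z hz
        obtain ⟨z', hz'⟩ := hzint n₁ ρ (fl n₁) i hd1
        have h1 := hrel n₁ ρ i
        rw [hz', hz] at h1
        apply hgoodp i hi (M * z' + z)
        rw [h1]
        push_cast
        ring
      obtain ⟨η, hη, hη2⟩ := floor_near hni
      set A : ℝ := M * ∑ j, |(C0 i j : ℝ)| + 1 with hA
      have hA0 : 0 < A := by positivity
      have h1 : ∀ᶠ ε : ℝ in 𝓝 0, ε < η / A := Iio_mem_nhds (by positivity)
      filter_upwards [nhdsWithin_le_nhds h1, self_mem_nhdsWithin] with ε hε hε0 y hy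
      rw [← he1 i]
      apply hη2
      have hε0' : (0 : ℝ) < ε := hε0
      have h2 : Y ρ y i - Y ρ (fr n₁) i = M * ∑ j, (C0 i j : ℝ) * (y j - fr n₁ j) := by
        simp only [hY, af]
        simp_rw [mul_sub]
        rw [Finset.sum_sub_distrib]
        ring
      rw [h2, abs_mul, abs_of_pos hMR]
      have h3 : |∑ j, (C0 i j : ℝ) * (y j - fr n₁ j)| ≤ (∑ j, |(C0 i j : ℝ)|) * ε := by
        rw [Finset.sum_mul]
        refine (Finset.abs_sum_le_sum_abs _ _).trans (Finset.sum_le_sum fun j _ => ?_)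
        rw [abs_mul]
        exact mul_le_mul_of_nonneg_left (hy j).le (abs_nonneg _)
      have h4 : ε * A < η := by
        rwa [lt_div_iff₀ hA0] at hε
      calc (M : ℝ) * |∑ j, (C0 i j : ℝ) * (y j - fr n₁ j)| ≤ M * ((∑ j, |(C0 i j : ℝ)|) * ε) :=
            mul_le_mul_of_nonneg_left h3 hMR.le
        _ ≤ ε * A := by rw [hA]; nlinarith
        _ < η := h4
  obtain ⟨ε, ⟨hε1, hε2⟩, hε0⟩ := (((eventually_all.2 hev1).and (eventually_all.2 hev2)).and
    self_mem_nhdsWithin).exists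
  have hε0' : (0 : ℝ) < ε := hε0
  -- step A
  have hA : ∀ F ∈ FF, ∀ n : ℤ, (D : ℤ) ∣ n - ρ → ∀ ω : Fin s → ℤ,
      MvPolynomial.eval (fun k => MvPolynomial.eval
        (Sum.elim (fun i => ((zz C0 R0 ρ n ω i : ℝ) : ℂ))
        (fun li => Complex.exp (G li.1 * (zz C0 R0 ρ n ω li.2 : ℝ)))) (Ph k)) F = 0 := by
    intro F hF n hn ω
    have hcomp : ∀ x : Fin r ⊕ (Fin t × Fin r) → ℂ,
        MvPolynomial.eval (fun k => MvPolynomial.eval x (Ph k)) F =
          MvPolynomial.eval x (MvPolynomial.aeval Ph F) := by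
      intro x
      rw [MvPolynomial.aeval_def, MvPolynomial.hom_eval₂, MvPolynomial.eval, MvPolynomial.coe_eval₂Hom]
      congr 1
      ext z
      simp
    rw [hcomp]
    apply stepA P G C0 C1 q hq R0 R1 hP0 hP1 D ρ hD hD1 (fr n₁) ε hε0' hε1
      (MvPolynomial.aeval Ph F) ?_ n hn ω
    intro m hm
    rw [← hcomp]
    have h1 := hvec m hm.1 (fun i => hε2 i (fr m) hm.2)
    have h2 : (fun k => MvPolynomial.eval
        (Sum.elim (fun i => ((zz C0 R0 ρ m (fun j => ⌊(q j).eval (m : ℝ)⌋) i : ℝ) : ℂ))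
        (fun li => Complex.exp (G li.1 * (zz C0 R0 ρ m (fun j => ⌊(q j).eval (m : ℝ)⌋) li.2 : ℝ)))) (Ph k)) =
        vec p g Pp m := funext h1
    rw [h2]
    exact hx m F hF
  -- rational polynomials on the line
  choose cr gr' hcg using fun i => (ratP_iff (R0 i)).1 (hR0r i)
  set Z : Fin r → ℚ[X] := fun i =>
    C (∑ j, (C0 i j : ℚ) * (fl n₁ j : ℚ)) + C (∑ j, (C0 i j : ℚ) * ((fl n₂ j : ℚ) - fl n₁ j)) * X +
      ((gr' i).comp (C (n₁ : ℚ) + C ((n₂ : ℚ) - n₁) * X) - C ((gr' i).eval (ρ : ℚ))) with hZ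
  have hZe : ∀ (i : Fin r) (τ : ℕ), (((Z i).eval (τ : ℚ) : ℚ) : ℂ) =
      ((zz C0 R0 ρ ((n₁ : ℤ) + τ * ((n₂ : ℤ) - n₁)) (fun j => fl n₁ j + τ * (fl n₂ j - fl n₁ j)) i :
        ℝ) : ℂ) := by
    intro i τ
    have h1 : (((Z i).eval (τ : ℚ) : ℚ) : ℝ) =
        zz C0 R0 ρ ((n₁ : ℤ) + τ * ((n₂ : ℤ) - n₁)) (fun j => fl n₁ j + τ * (fl n₂ j - fl n₁ j)) i := by
      rw [hZ, zz]
      simp only [eval_add, eval_C, eval_mul, eval_X, eval_sub, eval_comp]
      have hc2 : ∀ x : ℚ, (R0 i).eval (x : ℝ) = cr i + (((gr' i).eval x : ℚ) : ℝ) := by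
        intro x
        rw [hcg i, eval_add, eval_C, eval_map]
        congr 1
        exact eval₂_at_apply (p := gr' i) (algebraMap ℚ ℝ) x
      have h2 := hc2 ((n₁ : ℚ) + ((n₂ : ℚ) - n₁) * τ)
      have h3 := hc2 (ρ : ℚ)
      push_cast at h2 h3 ⊢
      have h4 : (n₁ : ℝ) + τ * ((n₂ : ℝ) - n₁) = (n₁ : ℝ) + ((n₂ : ℝ) - n₁) * τ := by ring
      rw [h4, h2, h3]
      have h5 : ∑ j, (C0 i j : ℝ) * ((fl n₁ j : ℝ) + τ * ((fl n₂ j : ℝ) - fl n₁ j)) =
          ∑ j, (C0 i j : ℝ) * (fl n₁ j : ℝ) + (∑ j, (C0 i j : ℝ) * ((fl n₂ j : ℝ) - fl n₁ j)) * τ := by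
        rw [Finset.sum_mul, ← Finset.sum_add_distrib]
        refine Finset.sum_congr rfl fun j _ => ?_
        ring
      rw [h5]
      ring
    rw [← h1]
    push_cast
    rfl
  have hdline : ∀ τ : ℕ, (D : ℤ) ∣ ((n₁ : ℤ) + τ * ((n₂ : ℤ) - n₁)) - (ρ : ℕ) := by
    intro τ
    obtain ⟨a, ha⟩ := hd1
    obtain ⟨b, hb⟩ := hd2
    refine ⟨a + τ * (b - a), ?_⟩
    linear_combination ha + τ * (hb - ha)
  have hxh : ∀ τ : ℕ, xh Z G Ph τ = fun k => MvPolynomial.eval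
        (Sum.elim (fun i => ((zz C0 R0 ρ ((n₁ : ℤ) + τ * ((n₂ : ℤ) - n₁))
            (fun j => fl n₁ j + τ * (fl n₂ j - fl n₁ j)) i : ℝ) : ℂ))
        (fun li => Complex.exp (G li.1 * (zz C0 R0 ρ ((n₁ : ℤ) + τ * ((n₂ : ℤ) - n₁))
            (fun j => fl n₁ j + τ * (fl n₂ j - fl n₁ j)) li.2 : ℝ)))) (Ph k) := by
    intro τ
    funext k
    rw [xh]
    simp_rw [hZe]
  obtain ⟨Q, hQ1, hQ2, c', hc', hQ3⟩ := curve V hV G hGV Z FF hom Ph (by
    intro τ F hF
    rw [hxh]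
    exact hA F hF _ (hdline τ) _)
  have hx0 : xh Z G Ph 0 = vec p g Pp n₁ := by
    rw [hxh]
    funext k
    rw [← hvec n₁ hd1 he1 k]
    simp
  have hx1 : xh Z G Ph 1 = vec p g Pp n₂ := by
    rw [hxh]
    funext k
    rw [← hvec n₂ hd2 he2 k]
    simp
  refine ⟨Q, hQ1, fun k => ?_, c', hc', fun k => ?_⟩
  · rw [hQ2, hx0]
  · rw [hQ3, hx1]

end Pool.Agent.K6.H59.EB
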