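import Pool.Agent.K6.H59.EB.Basis
import Pool.Agent.K6.H59.EB.Growth

set_option autoImplicit false

/-! # Vanishing at bracket points: from the actual points to all integral points -/

namespace Pool.Agent.K6.H59.EB

open Polynomial Finset Filter Topology

/-- analytic functions -/
noncomputable def Ana (s : ℕ) : Subring ((Fin s → ℝ) → ℂ) where
  carrier := {f | AnalyticOnNhd ℝ f Set.univ}
  mul_mem' hf hg := hf.mul hg
  one_mem' := analyticOnNhd_const
  add_mem' hf hg := hf.add hg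
  zero_mem' := analyticOnNhd_const
  neg_mem' hf := hf.neg

variable {s : ℕ}

/-- the ring of the sums of functions `x ^ k * exp (x c(x)) * f(y)` -/
abbrev Al (s : ℕ) : Type := AddMonoidAlgebra (Ana s) (ℕ × ℝ[X])

/-- growth functions as characters -/
noncomputable def chr (ν : ℝ) : Multiplicative (ℕ × ℝ[X]) →* ℂ where
  toFun j := (gr j.toAdd ν : ℂ)
  map_one' := by simp [gr]
  map_mul' i j := by
    rw [← Complex.ofReal_mul]
    congr 1
    simp only [gr, toAdd_mul, Prod.fst_add, Prod.snd_add, eval_add]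
    rw [pow_add, mul_add, Real.exp_add]
    ring

/-- evaluation -/
noncomputable def ev (ν : ℝ) (y : Fin s → ℝ) : Al s →+* ℂ :=
  AddMonoidAlgebra.liftNCRingHom ((Pi.evalRingHom (fun _ : Fin s → ℝ => ℂ) y).comp (Ana s).subtype)
    (chr ν) (fun _ _ => Commute.all _ _)

theorem ev_single (ν : ℝ) (y : Fin s → ℝ) (j : ℕ × ℝ[X]) (f : Ana s) :
    ev ν y (AddMonoidAlgebra.single j f) = f.1 y * gr j ν := by
  rw [ev, AddMonoidAlgebra.liftNCRingHom_single]
  rfl

theorem ev_eq (ν : ℝ) (y : Fin s → ℝ) (a : Al s) :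
    ev ν y a = ∑ j ∈ a.coeff.support, (gr j ν : ℂ) * (a.coeff j).1 y := by
  have h : a = ∑ j ∈ a.coeff.support, AddMonoidAlgebra.single j (a.coeff j) := by
    have := AddMonoidAlgebra.sum_coeff_single a
    exact this.symm
  conv_lhs => rw [h]
  rw [map_sum]
  refine Finset.sum_congr rfl fun j _ => ?_
  rw [ev_single, mul_comm]

/-- the places at which the fractional parts are near `y0` -/
def TT (q : Fin s → ℝ[X]) (D ρ : ℕ) (y0 : Fin s → ℝ) (ε : ℝ) : Set ℕ :=
  {n | (D : ℤ) ∣ (n : ℤ) - ρ ∧ ∀ j, |Int.fract ((q j).eval (n : ℝ)) - y0 j| < ε}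

theorem tdense (q : Fin s → ℝ[X]) (hq : Indep q) (D ρ : ℕ) (hD : 0 < D) (y0 : Fin s → ℝ) (ε : ℝ)
    (hy0 : ∀ j, ε < y0 j ∧ y0 j < 1 - ε) (y : Fin s → ℝ) (hy : ∀ j, |y j - y0 j| < ε) (δ : ℝ)
    (hδ : 0 < δ) (N0 : ℕ) :
    ∃ n ∈ TT q D ρ y0 ε, N0 ≤ n ∧ ∀ j, |Int.fract ((q j).eval (n : ℝ)) - y j| < δ := by
  -- a common margin
  obtain ⟨η, hη, hη2⟩ : ∃ η : ℝ, 0 < η ∧ ∀ j, |y j - y0 j| + η ≤ ε := by
    rcases Nat.eq_zero_or_pos s with h0 | h0
    · subst h0
      exact ⟨1, one_pos, fun j => j.elim0⟩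
    · have hne : (Finset.univ : Finset (Fin s)).Nonempty := ⟨⟨0, h0⟩, Finset.mem_univ _⟩
      obtain ⟨j0, -, hj0⟩ := Finset.exists_max_image Finset.univ (fun j => |y j - y0 j|) hne
      refine ⟨ε - |y j0 - y0 j0|, by linarith [hy j0], fun j => ?_⟩
      have := hj0 j (Finset.mem_univ _)
      linarith
  obtain ⟨n, hn1, hn2, hn3⟩ := dense q hq D ρ hD y (min η δ) (lt_min hη hδ) N0
  have hfr : ∀ j, |Int.fract ((q j).eval (n : ℝ)) - y j| < min η δ := by
    intro j
    obtain ⟨m, hm⟩ := hn3 j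
    have h1 := hη2 j
    have h2 := hy0 j
    have h3 := lt_of_lt_of_le hm (min_le_left _ _)
    have h4 := abs_lt.1 h3
    have h5 := abs_le.1 (le_refl |y j - y0 j|)
    have hfl : ⌊(q j).eval (n : ℝ)⌋ = m := by
      rw [Int.floor_eq_iff]
      constructor <;> linarith
    rw [Int.fract, hfl]
    have e1 : (q j).eval (n : ℝ) - m - y j = (q j).eval (n : ℝ) - y j - m := by ring
    rw [e1]
    exact hm
  refine ⟨n, ⟨?_, fun j => ?_⟩, hn1, fun j => lt_of_lt_of_le (hfr j) (min_le_right _ _)⟩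
  · have := (Nat.modEq_iff_dvd.1 hn2)
    have h := (dvd_neg (α := ℤ)).2 this
    rwa [neg_sub] at h
  · have h1 := lt_of_lt_of_le (hfr j) (min_le_left _ _)
    have h2 := hη2 j
    have h3 := abs_sub_le (Int.fract ((q j).eval (n : ℝ))) (y j) (y0 j)
    linarith

/-- an analytic function which tends to zero along the fractional parts is zero -/
theorem zero_of (q : Fin s → ℝ[X]) (hq : Indep q) (D ρ : ℕ) (hD : 0 < D) (y0 : Fin s → ℝ) (ε : ℝ)
    (hε : 0 < ε) (hy0 : ∀ j, ε < y0 j ∧ y0 j < 1 - ε) (f : Ana s)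
    (h : Tendsto (fun n : ℕ => f.1 (fun j => Int.fract ((q j).eval (n : ℝ))))
      (atTop ⊓ 𝓟 (TT q D ρ y0 ε)) (𝓝 0)) : f = 0 := by
  have hf : AnalyticOnNhd ℝ f.1 Set.univ := f.2
  have hcont : Continuous f.1 := continuousOn_univ.1 hf.continuousOn
  have hball : ∀ y : Fin s → ℝ, (∀ j, |y j - y0 j| < ε) → f.1 y = 0 := by
    intro y hy
    by_contra hne
    have hpos : 0 < ‖f.1 y‖ := norm_pos_iff.2 hne
    obtain ⟨δ, hδ, hδ2⟩ := Metric.continuous_iff.1 hcont y (‖f.1 y‖ / 2) (by positivity)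
    have h1 := (Metric.tendsto_nhds.1 h) (‖f.1 y‖ / 2) (by positivity)
    rw [eventually_inf_principal, eventually_atTop] at h1
    obtain ⟨N0, hN0⟩ := h1
    obtain ⟨n, hnT, hn0, hn⟩ := tdense q hq D ρ hD y0 ε hy0 y hy δ hδ N0
    have h2 := hN0 n hn0 hnT
    have h3 := hδ2 (fun j => Int.fract ((q j).eval (n : ℝ))) (by
      rw [dist_pi_lt_iff hδ]
      intro j
      rw [Real.dist_eq]
      exact hn j)
    rw [dist_zero_right] at h2
    rw [dist_eq_norm] at h3
    have h4 : ‖f.1 y‖ ≤ ‖f.1 (fun j => Int.fract ((q j).eval (n : ℝ))) - f.1 y‖ +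
        ‖f.1 (fun j => Int.fract ((q j).eval (n : ℝ)))‖ := by
      rw [norm_sub_rev]
      have := norm_add_le (f.1 y - f.1 (fun j => Int.fract ((q j).eval (n : ℝ))))
        (f.1 (fun j => Int.fract ((q j).eval (n : ℝ))))
      rwa [sub_add_cancel] at this
    linarith
  have hev : f.1 =ᶠ[𝓝 y0] 0 := by
    rw [Filter.EventuallyEq, Metric.eventually_nhds_iff]
    refine ⟨ε, hε, fun y hy => ?_⟩
    apply hball
    intro j
    have := (dist_pi_lt_iff hε).1 hy j
    rwa [Real.dist_eq] at this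
  have h1 := hf.eqOn_zero_of_preconnected_of_eventuallyEq_zero isPreconnected_univ
    (Set.mem_univ y0) hev
  apply Subtype.ext
  funext y
  exact h1 (Set.mem_univ y)

theorem stepA0 (q : Fin s → ℝ[X]) (hq : Indep q) (D ρ : ℕ) (hD : 0 < D) (y0 : Fin s → ℝ) (ε : ℝ)
    (hε : 0 < ε) (hy0 : ∀ j, ε < y0 j ∧ y0 j < 1 - ε) (a : Al s)
    (h : ∀ n ∈ TT q D ρ y0 ε, ev (n : ℝ) (fun j => Int.fract ((q j).eval (n : ℝ))) a = 0) :
    a = 0 := by
  have hz : ∀ f : Ana s, Tendsto (fun n : ℕ => f.1 (fun j => Int.fract ((q j).eval (n : ℝ))))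
      (atTop ⊓ 𝓟 (TT q D ρ y0 ε)) (𝓝 0) → f = 0 := fun f hf =>
    zero_of q hq D ρ hD y0 ε hε hy0 f hf
  have h1 := dom (TT q D ρ y0 ε)
    (fun j n => (a.coeff j).1 (fun j => Int.fract ((q j).eval (n : ℝ)))) a.coeff.support
    (by
      intro j _
      have hcont : Continuous (a.coeff j).1 :=
        continuousOn_univ.1 (AnalyticOnNhd.continuousOn (a.coeff j).2)
      have hcomp : IsCompact (Set.pi Set.univ (fun _ : Fin s => Set.Icc (0 : ℝ) 1)) :=
        isCompact_univ_pi fun _ => isCompact_Icc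
      obtain ⟨B, hB⟩ := hcomp.exists_bound_of_continuousOn hcont.continuousOn
      refine ⟨B, fun n _ => hB _ ?_⟩
      intro j _
      exact ⟨Int.fract_nonneg _, (Int.fract_lt_one _).le⟩)
    (by
      intro j _ ht n _
      have := hz _ ht
      rw [this]
      rfl)
    (by
      intro n hn
      have := h n hn
      rw [ev_eq] at this
      exact this)
  have h2 : a.coeff = 0 := by
    by_contra hne
    obtain ⟨j, hj⟩ := Finsupp.support_nonempty_iff.2 hne
    have h3 := h1 j hj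
    have h4 : a.coeff j = 0 := by
      apply hz
      refine Tendsto.congr' ?_ tendsto_const_nhds
      rw [Filter.EventuallyEq, eventually_inf_principal]
      exact Eventually.of_forall fun n hn => (h3 n hn).symm
    exact (Finsupp.mem_support_iff.1 hj) h4
  exact AddMonoidAlgebra.coeff_injective h2

end Pool.Agent.K6.H59.EB
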