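import Pool.Agent.K6.H59.EB.StepA

set_option autoImplicit false

/-! # Polynomials in `Z_i(n)` and `exp (G_l Z_i(n))` which vanish at the bracket points -/

namespace Pool.Agent.K6.H59.EB

open Polynomial Finset Filter Topology

variable {s r t : ℕ}

/-- real affine function with integral coefficients -/
noncomputable def af (c : Fin s → ℤ) (b : ℝ) (y : Fin s → ℝ) : ℝ := ∑ j, (c j : ℝ) * y j + b

theorem af_analytic (c : Fin s → ℤ) (b : ℝ) : AnalyticOnNhd ℝ (af c b) Set.univ := by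
  intro y _
  unfold af
  have h : ∀ j ∈ (Finset.univ : Finset (Fin s)), AnalyticAt ℝ (fun y : Fin s → ℝ => (c j : ℝ) * y j) y := by
    intro j _
    exact analyticAt_const.mul ((ContinuousLinearMap.proj (R := ℝ) (φ := fun _ : Fin s => ℝ) j).analyticAt y)
  exact (Finset.analyticAt_fun_sum _ h).add analyticAt_const

theorem ofReal_analytic {f : (Fin s → ℝ) → ℝ} (hf : AnalyticOnNhd ℝ f Set.univ) :
    AnalyticOnNhd ℝ (fun y => (f y : ℂ)) Set.univ := by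
  intro y hy
  exact (Complex.ofRealCLM.analyticAt _).comp (hf y hy)

/-- the exponent -/
noncomputable def lam (G : ℂ) (c0 : Fin s → ℤ) (b0 : ℝ) (c1 : Fin s → ℤ) (b1 : ℝ)
    (y : Fin s → ℝ) : ℂ :=
  -G * (af c0 b0 y : ℂ) + 2 * Real.pi * Complex.I * (af c1 b1 y : ℂ)

theorem exp_lam_analytic (a G : ℂ) (c0 : Fin s → ℤ) (b0 : ℝ) (c1 : Fin s → ℤ) (b1 : ℝ) :
    AnalyticOnNhd ℝ (fun y => Complex.exp (a + lam G c0 b0 c1 b1 y)) Set.univ := by
  intro y hy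
  have h0 := ofReal_analytic (af_analytic c0 b0) y hy
  have h1 := ofReal_analytic (af_analytic c1 b1) y hy
  have h2 : AnalyticAt ℝ (fun y => a + lam G c0 b0 c1 b1 y) y := by
    unfold lam
    exact analyticAt_const.add ((analyticAt_const.mul h0).add (analyticAt_const.mul h1))
  have h3 : AnalyticAt ℝ Complex.exp (a + lam G c0 b0 c1 b1 y) :=
    (Complex.differentiable_exp.analyticAt _).restrictScalars
  exact AnalyticAt.comp (g := Complex.exp) (f := fun y => a + lam G c0 b0 c1 b1 y) h3 h2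

/-- constants -/
noncomputable def cst (s : ℕ) : ℂ →+* Ana s where
  toFun c := ⟨fun _ => c, analyticOnNhd_const⟩
  map_one' := rfl
  map_mul' _ _ := rfl
  map_zero' := rfl
  map_add' _ _ := rfl

variable (P : Fin r → ℝ[X]) (G : Fin t → ℂ) (C0 : Fin r → Fin s → ℤ) (b0 : Fin r → ℝ)
  (C1 : Fin t → Fin r → Fin s → ℤ) (b1 : Fin t → Fin r → ℝ)

/-- the values -/
noncomputable def val (ν : ℝ) (y : Fin s → ℝ) : Fin r ⊕ (Fin t × Fin r) → ℂ :=
  Sum.elim (fun i => (((P i).eval ν : ℝ) : ℂ) - (af (C0 i) (b0 i) y : ℂ))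
    (fun li => Complex.exp ((G li.1).re * ((P li.2).eval ν : ℝ) +
      lam (G li.1) (C0 li.2) (b0 li.2) (C1 li.1 li.2) (b1 li.1 li.2) y))

/-- the generators -/
noncomputable def gen : Fin r ⊕ (Fin t × Fin r) → Al s :=
  Sum.elim (fun i => ∑ k ∈ range ((P i).natDegree + 1),
      AddMonoidAlgebra.single (k, (0 : ℝ[X])) (cst s ((P i).coeff k : ℂ)) -
      AddMonoidAlgebra.single (0, (0 : ℝ[X])) ⟨_, ofReal_analytic (af_analytic (C0 i) (b0 i))⟩)
    (fun li => AddMonoidAlgebra.single (0, C (G li.1).re * divX (P li.2))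
      ⟨_, exp_lam_analytic ((G li.1).re * ((P li.2).coeff 0 : ℝ)) (G li.1) (C0 li.2) (b0 li.2)
        (C1 li.1 li.2) (b1 li.1 li.2)⟩)

theorem ev_gen (ν : ℝ) (y : Fin s → ℝ) (x : Fin r ⊕ (Fin t × Fin r)) :
    ev ν y (gen P G C0 b0 C1 b1 x) = val P G C0 b0 C1 b1 ν y x := by
  rcases x with i | li
  · simp only [gen, val, Sum.elim_inl]
    rw [map_sub, map_sum, ev_single]
    congr 1
    · rw [eval_eq_sum_range, Complex.ofReal_sum]
      refine Finset.sum_congr rfl fun k _ => ?_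
      rw [ev_single]
      simp [cst, gr]
    · simp [gr]
  · simp only [gen, val, Sum.elim_inr]
    rw [ev_single]
    simp only [gr, pow_zero, one_mul]
    rw [Complex.ofReal_exp, ← Complex.exp_add]
    congr 1
    have h1 : (P li.2).eval ν = ν * (divX (P li.2)).eval ν + (P li.2).coeff 0 := by
      conv_lhs => rw [← divX_mul_X_add (P li.2)]
      rw [eval_add, eval_mul, eval_X, eval_C]
      ring
    rw [h1, eval_mul, eval_C]
    push_cast
    ring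

theorem eval_al (ν : ℝ) (y : Fin s → ℝ) (Θ : MvPolynomial (Fin r ⊕ (Fin t × Fin r)) ℂ) :
    ev ν y (MvPolynomial.eval₂ (AddMonoidAlgebra.singleZeroRingHom.comp (cst s))
      (gen P G C0 b0 C1 b1) Θ) = MvPolynomial.eval (val P G C0 b0 C1 b1 ν y) Θ := by
  rw [MvPolynomial.hom_eval₂, MvPolynomial.eval, MvPolynomial.coe_eval₂Hom]
  congr 1
  · ext c
    have := ev_single ν y (0 : ℕ × ℝ[X]) (cst s c)
    change ev ν y (AddMonoidAlgebra.single 0 (cst s c)) = c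
    rw [this]
    simp [cst, gr]
  · funext x
    exact ev_gen P G C0 b0 C1 b1 ν y x

/-- the values at integral points -/
noncomputable def zz (C0 : Fin r → Fin s → ℤ) (R0 : Fin r → ℝ[X]) (ρ : ℕ) (n : ℤ)
    (ω : Fin s → ℤ) (i : Fin r) : ℝ :=
  ∑ j, (C0 i j : ℝ) * ω j + ((R0 i).eval (n : ℝ) - (R0 i).eval (ρ : ℝ))

theorem val_int (q : Fin s → ℝ[X]) (R0 : Fin r → ℝ[X]) (R1 : Fin t → Fin r → ℝ[X])
    (hP0 : ∀ i, P i = ∑ j, C (C0 i j : ℝ) * q j + R0 i)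
    (hP1 : ∀ l i, C ((G l).im / (2 * Real.pi)) * P i = ∑ j, C (C1 l i j : ℝ) * q j + R1 l i)
    (D ρ : ℕ)
    (hD1 : ∀ l i, ∀ n m : ℤ, (D : ℤ) ∣ n - m →
      ∃ z : ℤ, (R1 l i).eval (n : ℝ) - (R1 l i).eval (m : ℝ) = z)
    (n : ℤ) (hn : (D : ℤ) ∣ n - ρ) (ω : Fin s → ℤ) :
    val P G C0 (fun i => (R0 i).eval (ρ : ℝ)) C1 (fun l i => (R1 l i).eval (ρ : ℝ)) (n : ℝ)
      (fun j => (q j).eval (n : ℝ) - ω j) =
    Sum.elim (fun i => ((zz C0 R0 ρ n ω i : ℝ) : ℂ))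
      (fun li => Complex.exp (G li.1 * (zz C0 R0 ρ n ω li.2 : ℝ))) := by
  have hz : ∀ i, (P i).eval (n : ℝ) - af (C0 i) ((R0 i).eval (ρ : ℝ))
      (fun j => (q j).eval (n : ℝ) - ω j) = zz C0 R0 ρ n ω i := by
    intro i
    rw [af, zz]
    conv_lhs => rw [hP0 i]
    rw [eval_add, eval_finsetSum]
    simp only [eval_mul, eval_C, mul_sub]
    rw [Finset.sum_sub_distrib]
    ring
  funext x
  rcases x with i | li
  · simp only [val, Sum.elim_inl]
    rw [← hz]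
    push_cast
    rfl
  · simp only [val, Sum.elim_inr]
    obtain ⟨l, i⟩ := li
    simp only
    obtain ⟨z, hz1⟩ := hD1 l i n ρ hn
    rw [Complex.exp_eq_exp_iff_exists_int]
    refine ⟨-(z + ∑ j, C1 l i j * ω j), ?_⟩
    rw [lam]
    have h1 : af (C1 l i) ((R1 l i).eval (ρ : ℝ)) (fun j => (q j).eval (n : ℝ) - ω j) =
        (G l).im / (2 * Real.pi) * (P i).eval (n : ℝ) - (z + ∑ j, (C1 l i j : ℝ) * ω j) := by
      have h2 := congrArg (fun f => Polynomial.eval (n : ℝ) f) (hP1 l i)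
      simp only [eval_mul, eval_C, eval_add, eval_finsetSum] at h2
      rw [h2, af, ← hz1]
      simp only [mul_sub, Finset.sum_sub_distrib, Int.cast_natCast]
      ring
    rw [h1, ← hz i]
    push_cast
    have hG : G l = (G l).re + (G l).im * Complex.I := (Complex.re_add_im _).symm
    have hpi : (Real.pi : ℂ) ≠ 0 := by exact_mod_cast Real.pi_ne_zero
    have e : 2 * (Real.pi : ℂ) * Complex.I * ((G l).im / (2 * Real.pi) * ((P i).eval (n : ℝ) : ℝ) -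
        (z + ∑ j, (C1 l i j : ℂ) * ω j)) = (G l).im * Complex.I * ((P i).eval (n : ℝ) : ℝ) -
        2 * Real.pi * Complex.I * (z + ∑ j, (C1 l i j : ℂ) * ω j) := by
      field_simp
    rw [e]
    conv_rhs => rw [mul_sub]
    have e2 : G l * (((P i).eval (n : ℝ) : ℝ) : ℂ) = ((G l).re + (G l).im * Complex.I) *
        (((P i).eval (n : ℝ) : ℝ) : ℂ) := by rw [← hG]
    rw [e2]
    ring

/-- Step A. -/
theorem stepA (q : Fin s → ℝ[X]) (hq : Indep q) (R0 : Fin r → ℝ[X]) (R1 : Fin t → Fin r → ℝ[X])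
    (hP0 : ∀ i, P i = ∑ j, C (C0 i j : ℝ) * q j + R0 i)
    (hP1 : ∀ l i, C ((G l).im / (2 * Real.pi)) * P i = ∑ j, C (C1 l i j : ℝ) * q j + R1 l i)
    (D ρ : ℕ) (hD : 0 < D)
    (hD1 : ∀ l i, ∀ n m : ℤ, (D : ℤ) ∣ n - m →
      ∃ z : ℤ, (R1 l i).eval (n : ℝ) - (R1 l i).eval (m : ℝ) = z)
    (y0 : Fin s → ℝ) (ε : ℝ) (hε : 0 < ε) (hy0 : ∀ j, ε < y0 j ∧ y0 j < 1 - ε)
    (Θ : MvPolynomial (Fin r ⊕ (Fin t × Fin r)) ℂ)
    (h : ∀ n ∈ TT q D ρ y0 ε, MvPolynomial.eval (Sum.elim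
      (fun i => ((zz C0 R0 ρ n (fun j => ⌊(q j).eval (n : ℝ)⌋) i : ℝ) : ℂ))
      (fun li => Complex.exp (G li.1 * (zz C0 R0 ρ n (fun j => ⌊(q j).eval (n : ℝ)⌋) li.2 : ℝ)))) Θ = 0)
    (n : ℤ) (hn : (D : ℤ) ∣ n - ρ) (ω : Fin s → ℤ) :
    MvPolynomial.eval (Sum.elim (fun i => ((zz C0 R0 ρ n ω i : ℝ) : ℂ))
      (fun li => Complex.exp (G li.1 * (zz C0 R0 ρ n ω li.2 : ℝ)))) Θ = 0 := by
  rw [← val_int P G C0 C1 q R0 R1 hP0 hP1 D ρ hD1 n hn ω, ← eval_al]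
  have h0 := stepA0 q hq D ρ hD y0 ε hε hy0 (MvPolynomial.eval₂
    (AddMonoidAlgebra.singleZeroRingHom.comp (cst s))
    (gen P G C0 (fun i => (R0 i).eval (ρ : ℝ)) C1 (fun l i => (R1 l i).eval (ρ : ℝ))) Θ) (by
    intro m hm
    rw [eval_al]
    have h1 := val_int P G C0 C1 q R0 R1 hP0 hP1 D ρ hD1 (m : ℤ) hm.1
      (fun j => ⌊(q j).eval (m : ℝ)⌋)
    have h2 := h m hm
    rw [Int.cast_natCast] at h1
    rw [← h1] at h2
    exact h2)
  rw [h0, map_zero]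

end Pool.Agent.K6.H59.EB
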