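import Pool.Agent.K6.H59.EB.Basis
import Pool.Agent.K6.H59.EB.Growth

set_option autoImplicit false

/-! # Independence of the functions `t ^ k * exp (t c(t))` on the natural numbers -/

namespace Pool.Agent.K6.H59.EB

open Polynomial Finset Filter Topology
open Pool.Agent.H767R2 (ee cav)

/-- real part of a polynomial -/
noncomputable def reP (c : ℂ[X]) : ℝ[X] := ∑ k ∈ range (c.natDegree + 1), monomial k (c.coeff k).re

/-- imaginary part of a polynomial -/
noncomputable def imP (c : ℂ[X]) : ℝ[X] := ∑ k ∈ range (c.natDegree + 1), monomial k (c.coeff k).im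

theorem coeff_reP (c : ℂ[X]) (k : ℕ) : (reP c).coeff k = (c.coeff k).re := by
  rw [reP, finsetSum_coeff]
  simp only [coeff_monomial]
  rw [Finset.sum_ite_eq']
  split_ifs with h
  · rfl
  · rw [Finset.mem_range] at h
    rw [coeff_eq_zero_of_natDegree_lt (by omega)]
    simp

theorem coeff_imP (c : ℂ[X]) (k : ℕ) : (imP c).coeff k = (c.coeff k).im := by
  rw [imP, finsetSum_coeff]
  simp only [coeff_monomial]
  rw [Finset.sum_ite_eq']
  split_ifs with h
  · rfl
  · rw [Finset.mem_range] at h
    rw [coeff_eq_zero_of_natDegree_lt (by omega)]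
    simp

theorem eval_reP_imP (c : ℂ[X]) (x : ℝ) :
    c.eval (x : ℂ) = ((reP c).eval x : ℝ) + ((imP c).eval x : ℝ) * Complex.I := by
  have h : c = (reP c).map Complex.ofRealHom + (imP c).map Complex.ofRealHom * C Complex.I := by
    ext k
    rw [coeff_add, coeff_mul_C, coeff_map, coeff_map, coeff_reP, coeff_imP]
    exact (Complex.re_add_im _).symm
  conv_lhs => rw [h]
  rw [eval_add, eval_mul, eval_C, eval_map, eval_map]
  have e : ∀ p : ℝ[X], eval₂ Complex.ofRealHom (x : ℂ) p = ((p.eval x : ℝ) : ℂ) := fun p =>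
    eval₂_at_apply (p := p) Complex.ofRealHom x
  rw [e, e]

variable {b : ℕ}

/-- the exponent of a monomial -/
noncomputable def cc (e : Fin b → ℂ[X]) (α : Option (Fin b) →₀ ℕ) : ℂ[X] :=
  ∑ a, C ((α (some a) : ℕ) : ℂ) * e a

/-- the point -/
noncomputable def pt (e : Fin b → ℂ[X]) (t : ℂ) : Option (Fin b) → ℂ :=
  fun o => o.elim t (fun a => Complex.exp (t * (e a).eval t))

theorem mono_eval (e : Fin b → ℂ[X]) (α : Option (Fin b) →₀ ℕ) (n : ℕ) :
    ∏ o, pt e (n : ℂ) o ^ α o = (gr (α none, reP (cc e α)) n : ℂ) *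
      ee ((C (1 / (2 * Real.pi)) * (X * imP (cc e α))).eval (n : ℝ)) := by
  rw [Fintype.prod_option]
  simp only [pt, Option.elim]
  simp_rw [← Complex.exp_nat_mul]
  rw [← Complex.exp_sum, gr, ee]
  push_cast
  rw [mul_assoc, ← Complex.exp_add]
  congr 2
  have h := eval_reP_imP (cc e α) (n : ℝ)
  have h2 : (cc e α).eval (((n : ℝ) : ℂ)) = ∑ a, (α (some a) : ℂ) * (e a).eval (n : ℂ) := by
    rw [cc, eval_finsetSum]
    simp
  have h3 : ∑ a, (α (some a) : ℂ) * ((n : ℂ) * (e a).eval (n : ℂ)) =
      (n : ℂ) * ∑ a, (α (some a) : ℂ) * (e a).eval (n : ℂ) := by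
    rw [Finset.mul_sum]
    refine Finset.sum_congr rfl fun a _ => ?_
    ring
  rw [h3, ← h2, h]
  simp only [eval_mul, eval_C, eval_X]
  push_cast
  have hpi : (Real.pi : ℂ) ≠ 0 := by exact_mod_cast Real.pi_ne_zero
  field_simp

/-- Independence. -/
theorem stepB (V : Submodule ℚ ℂ)
    (hV : ∀ v ∈ V, ∀ x : ℚ, v = 2 * Real.pi * Complex.I * x → v = 0)
    (e : Fin b → ℂ[X]) (he : ∀ a k, (e a).coeff k ∈ V)
    (hind : ∀ h : Fin b → ℤ, ∑ a, h a • e a = 0 → h = 0)
    (Θ : MvPolynomial (Option (Fin b)) ℂ)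
    (h : ∀ n : ℕ, MvPolynomial.eval (pt e (n : ℂ)) Θ = 0) : Θ = 0 := by
  classical
  set key : (Option (Fin b) →₀ ℕ) → ℕ × ℝ[X] := fun α => (α none, reP (cc e α)) with hkey
  set ph : (Option (Fin b) →₀ ℕ) → ℝ[X] := fun α =>
    C (1 / (2 * Real.pi)) * (X * imP (cc e α)) with hph
  set H : ℕ × ℝ[X] → ℕ → ℂ := fun j n =>
    ∑ α ∈ Θ.support.filter (fun α => key α = j), Θ.coeff α * ee ((ph α).eval (n : ℝ)) with hH
  have hccV : ∀ α k, (cc e α).coeff k ∈ V := by
    intro α k
    rw [cc, finsetSum_coeff]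
    refine Submodule.sum_mem _ fun a _ => ?_
    rw [coeff_C_mul, ← nsmul_eq_mul]
    exact V.nsmul_mem (he a k) _
  -- phases are not rational
  have hphase : ∀ α α₀, key α = key α₀ → RatP (ph α - ph α₀) → α = α₀ := by
    intro α α₀ hk hr
    have h1 : α none = α₀ none := congrArg Prod.fst hk
    have h2 : reP (cc e α) = reP (cc e α₀) := congrArg Prod.snd hk
    have h3 : cc e α = cc e α₀ := by
      rw [← sub_eq_zero]
      ext k
      obtain ⟨x, hx⟩ := hr (k + 1) (by omega)
      simp only [hph] at hx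
      rw [coeff_sub, coeff_C_mul, coeff_C_mul, coeff_X_mul, coeff_X_mul, coeff_imP, coeff_imP,
        ← mul_sub] at hx
      rw [coeff_zero]
      apply hV _ (by rw [coeff_sub]; exact V.sub_mem (hccV α k) (hccV α₀ k)) x
      have h4 : ((cc e α).coeff k).re = ((cc e α₀).coeff k).re := by
        rw [← coeff_reP, ← coeff_reP, h2]
      have h5 : ((cc e α).coeff k).im - ((cc e α₀).coeff k).im = 2 * Real.pi * x := by
        rw [← hx]
        have := Real.pi_ne_zero
        field_simp
      rw [coeff_sub]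
      apply Complex.ext
      · rw [Complex.sub_re, h4, sub_self]
        simp
      · rw [Complex.sub_im, h5]
        simp
    have h6 : (fun a => (α (some a) : ℤ) - α₀ (some a)) = 0 := by
      apply hind
      have h7 : ∑ a, ((α (some a) : ℤ) - α₀ (some a)) • e a = cc e α - cc e α₀ := by
        rw [cc, cc, ← Finset.sum_sub_distrib]
        refine Finset.sum_congr rfl fun a _ => ?_
        rw [sub_smul, natCast_zsmul, natCast_zsmul, nsmul_eq_mul, nsmul_eq_mul]
        simp
      rw [h7, h3, sub_self]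
    ext o
    rcases o with _ | a
    · exact h1
    · have := congrFun h6 a
      simp only [Pi.zero_apply] at this
      omega
  -- coefficients vanish if the phases sum to something small
  have hcoef : ∀ j, Tendsto (H j) (atTop ⊓ 𝓟 Set.univ) (𝓝 0) → ∀ α₀ ∈ Θ.support, key α₀ ≠ j := by
    intro j hj α₀ hα₀ hk
    rw [principal_univ, inf_top_eq] at hj
    have h1 : Tendsto (fun n : ℕ => H j n * ee (-(ph α₀).eval (n : ℝ))) atTop (𝓝 0) := by
      rw [tendsto_zero_iff_norm_tendsto_zero] at hj ⊢
      refine hj.congr fun n => ?_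
      rw [norm_mul, Pool.Agent.H767R2.norm_ee, mul_one]
    have h2 := h1.cesaro_smul
    have h3 : Tendsto (cav fun n => H j n * ee (-(ph α₀).eval (n : ℝ))) atTop (𝓝 0) := by
      refine h2.congr fun N => ?_
      rw [cav, Complex.real_smul]
      push_cast
      rw [one_div]
    have h4 : ∀ N, cav (fun n => H j n * ee (-(ph α₀).eval (n : ℝ))) N =
        ∑ α ∈ Θ.support.filter (fun α => key α = j), Θ.coeff α *
          cav (fun n => ee ((ph α - ph α₀).eval (n : ℝ))) N := by
      intro N
      simp only [cav, hH]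
      rw [Finset.mul_sum]
      simp_rw [Finset.sum_mul, Finset.mul_sum]
      rw [Finset.sum_comm]
      refine Finset.sum_congr rfl fun α _ => ?_
      refine Finset.sum_congr rfl fun n _ => ?_
      rw [eval_sub, sub_eq_add_neg, Pool.Agent.H767R2.ee_add]
      ring
    have h5 : Tendsto (fun N => ∑ α ∈ Θ.support.filter (fun α => key α = j), Θ.coeff α *
          cav (fun n => ee ((ph α - ph α₀).eval (n : ℝ))) N) atTop
        (𝓝 (∑ α ∈ Θ.support.filter (fun α => key α = j), Θ.coeff α *
          (if α = α₀ then 1 else 0))) := by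
      refine tendsto_finsetSum _ fun α hα => Tendsto.const_mul _ ?_
      rw [Finset.mem_filter] at hα
      split_ifs with hαα
      · subst hαα
        refine Tendsto.congr' ?_ tendsto_const_nhds
        filter_upwards [eventually_gt_atTop 0] with N hN
        rw [sub_self, cav]
        simp only [eval_zero, Pool.Agent.H767R2.ee_zero, Finset.sum_const, card_range, nsmul_eq_mul,
          mul_one]
        have : (N : ℂ) ≠ 0 := by exact_mod_cast hN.ne'
        field_simp
      · apply avg_ee
        intro hr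
        exact hαα (hphase α α₀ (hα.2.trans hk.symm) hr)
    have h6 := tendsto_nhds_unique (h3.congr h4) h5
    rw [Finset.sum_eq_single α₀] at h6
    · rw [if_pos rfl, mul_one] at h6
      exact (MvPolynomial.mem_support_iff.1 hα₀) h6.symm
    · intro α _ hα
      rw [if_neg hα, mul_zero]
    · intro hno
      exact absurd (Finset.mem_filter.2 ⟨hα₀, hk⟩) hno
  by_contra hne
  obtain ⟨α₀, hα₀⟩ := MvPolynomial.support_nonempty.2 hne
  have hfin := dom Set.univ H (Θ.support.image key)
    (by
      intro j _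
      refine ⟨∑ α ∈ Θ.support.filter (fun α => key α = j), ‖Θ.coeff α‖, fun n _ => ?_⟩
      simp only [hH]
      refine (norm_sum_le _ _).trans (Finset.sum_le_sum fun α _ => ?_)
      rw [norm_mul, Pool.Agent.H767R2.norm_ee, mul_one])
    (by
      intro j hj ht
      obtain ⟨α, hα, hk⟩ := Finset.mem_image.1 hj
      exact absurd hk (hcoef j ht α hα))
    (by
      intro n _
      have h1 := h n
      rw [MvPolynomial.eval_eq'] at h1
      rw [← h1, ← Finset.sum_fiberwise_of_maps_to (g := key) (t := Θ.support.image key)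
        (fun α hα => Finset.mem_image_of_mem _ hα)]
      refine Finset.sum_congr rfl fun j _ => ?_
      simp only [hH]
      rw [Finset.mul_sum]
      refine Finset.sum_congr rfl fun α hα => ?_
      rw [Finset.mem_filter] at hα
      rw [mono_eval, ← hα.2]
      ring)
  refine hcoef (key α₀) ?_ α₀ hα₀ rfl
  refine Tendsto.congr' ?_ tendsto_const_nhds
  exact Eventually.of_forall fun n => (hfin (key α₀) (Finset.mem_image_of_mem _ hα₀) n
    (Set.mem_univ _)).symm

end Pool.Agent.K6.H59.EB
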